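import Pool.Agent.H419.LT.Stm
import Pool.Graph.R_pool_sql_team_seeded_3997aac3.Q258.LQ.Fin

/-! # Malle's conjecture over large base fields, with local conditions: summation -/

set_option autoImplicit false

open NumberField Filter Topology
open Pool.Agent.TH444.ML

namespace Pool.Agent.H419.MK

/-- MAINQ: `S_MAINP` with a weaker assumption on the number of the extensions with group `H`. -/
def S_MAINQ : Prop := ∀ (K Ω H : Type) [Field K] [NumberField K] [Field Ω] [Algebra K Ω]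
  [IsAlgClosure K Ω] [Group H] [Finite H] (P : IntermediateField K Ω → Prop),
  2 ≤ Nat.card H → ∀ s : ℝ, s < 3 / 2 →
  Summable (fun M : Gal K Ω H => (dsc M.1) ^ (-s)) →
  (∀ M ∈ Gal K Ω H, ∃ c : ℝ, Tendsto (fun Y : ℝ =>
    (Set.ncard {L : IntermediateField K Ω | L ∈ AS M Y ∧ P L} : ℝ) / Y) atTop (𝓝 c)) →
  ∀ D : ℝ, 0 < D →
  (∀ X : ℝ, 0 < X → (TT K Ω H (X * D)).Finite) ∧
  ∃ c : ℝ, 0 ≤ c ∧
    Tendsto (fun X : ℝ => (Set.ncard {L : IntermediateField K Ω | L ∈ TT K Ω H (X * D) ∧ P L} : ℝ) / X)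
      atTop (𝓝 c) ∧
    (0 < c ↔ ∃ M ∈ Gal K Ω H, ¬ Tendsto (fun Y : ℝ =>
      (Set.ncard {L : IntermediateField K Ω | L ∈ AS M Y ∧ P L} : ℝ) / Y) atTop (𝓝 0))

/-- `H` has a solvable normal subgroup `S` such that `H / S` is trivial or has a core-free subgroup
of index `u`, `8 u (u + 1) ≤ |H / S|`. -/
def Adm (H : Type) [Group H] : Prop :=
  ∃ (S : Subgroup H) (_ : S.Normal), Group.IsSolvable S ∧
    (S = ⊤ ∨ ∃ U : Subgroup (H ⧸ S), U.normalCore = ⊥ ∧
      8 * U.index * (U.index + 1) ≤ Nat.card (H ⧸ S))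

/-- SUMG: there are few extensions with group `H`. -/
def S_SUMG : Prop := ∀ (K Ω H : Type) [Field K] [NumberField K] [Field Ω] [Algebra K Ω]
  [IsAlgClosure K Ω] [Group H] [Finite H], Adm H →
  Summable (fun M : Gal K Ω H => (dsc M.1) ^ (-(5 / 4) : ℝ))

end Pool.Agent.H419.MK
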