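import Pool.Agent.H419.LT.Core
import Pool.Agent.H419.MK.StmB

/-! # The counts, for groups `H` with few extensions -/

set_option autoImplicit false
set_option linter.unusedSectionVars false

open NumberField Filter Topology
open Pool.Agent.TH444.ML
open Pool.Agent.H419.LT

namespace Pool.Agent.H419.MK

theorem asymp_tyQ (ty : S_TYG) (lim : S_LIMP) (pos : S_POSP) (mq : S_MAINQ) (K Ω H : Type) [Field K] [NumberField K] [Field Ω] [Algebra K Ω]
    [IsAlgClosure K Ω] [Group H] [Finite H] (h2 : 2 ≤ Nat.card H)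
    (s : ℝ) (hs : s < 3 / 2)
    (hsum : Summable (fun M : Gal K Ω H => (dsc M.1) ^ (-s)))
    (𝔪 : Ideal (𝓞 K)) (h𝔪 : 𝔪 ≠ ⊥) (R : Type) [CommRing R] [Algebra (𝓞 K) R]
    (D : ℝ) (hD : 0 < D) :
    (∀ X : ℝ, 0 < X → (TT K Ω H (X * D)).Finite) ∧
    ∃ c : ℝ, 0 ≤ c ∧
      Tendsto (fun X : ℝ =>
        (Set.ncard {L : IntermediateField K Ω | L ∈ TT K Ω H (X * D) ∧ Ty K L 𝔪 R} : ℝ) / X)
        atTop (𝓝 c) ∧
      (0 < c ↔ ∃ M ∈ Gal K Ω H,
        (∃ L : IntermediateField K Ω, M ≤ L ∧ Module.finrank K L = 2 * Module.finrank K M ∧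
          Ty K L 𝔪 R) ∨
        Nonempty (((𝓞 M × 𝓞 M) ⧸ 𝔪.map (algebraMap (𝓞 K) (𝓞 M × 𝓞 M))) ≃ₐ[𝓞 K] R)) := by
  have hac : IsAlgClosed Ω := IsAlgClosure.isAlgClosed K
  have hl : ∀ M ∈ Gal K Ω H, ∃ c : ℝ, Tendsto (fun Y : ℝ =>
      (Set.ncard {L : IntermediateField K Ω | L ∈ AS M Y ∧ Ty K L 𝔪 R} : ℝ) / Y) atTop (𝓝 c) := by
    intro M hM
    have hfd := gal_fd hM
    have hnf : NumberField M := nf_of_fd M
    obtain ⟨c, hc⟩ := lim M Ω (fun L => Ty K L 𝔪 R) (locDet_ty ty 𝔪 h𝔪 R)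
    refine ⟨c, hc.congr fun Y => ?_⟩
    rw [ncard_AS_ty]
  obtain ⟨h1, c, hc0, hc1, hc2⟩ := mq K Ω H (fun L => Ty K L 𝔪 R) h2 s hs hsum hl D hD
  refine ⟨h1, c, hc0, hc1, hc2.trans ?_⟩
  constructor
  · rintro ⟨M, hM, hne⟩
    refine ⟨M, hM, Or.inl ?_⟩
    by_contra hcon
    apply hne
    have : ∀ Y : ℝ, {L : IntermediateField K Ω | L ∈ AS M Y ∧ Ty K L 𝔪 R} = ∅ := by
      intro Y
      rw [Set.eq_empty_iff_forall_notMem]
      rintro L ⟨hL, hT⟩
      exact hcon ⟨L, hL.1, hL.2.1, hT⟩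
    simp only [this, Set.ncard_empty, Nat.cast_zero, zero_div]
    exact tendsto_const_nhds
  · rintro ⟨M, hM, h⟩
    refine ⟨M, hM, ?_⟩
    have hfd := gal_fd hM
    have hnf : NumberField M := nf_of_fd M
    have hinj : Function.Injective (algebraMap (𝓞 K) (𝓞 M)) :=
      FaithfulSMul.algebraMap_injective (𝓞 K) (𝓞 M)
    have h0 : 𝔪.map (algebraMap (𝓞 K) (𝓞 M)) ≠ ⊥ := by
      rwa [Ne, Ideal.map_eq_bot_iff_of_injective hinj]
    have h𝔫 : Ideal.span {(4 : 𝓞 M)} * 𝔪.map (algebraMap (𝓞 K) (𝓞 M)) ≠ ⊥ := by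
      refine mul_ne_zero ?_ h0
      rw [Ne, Ideal.zero_eq_bot, Ideal.span_singleton_eq_bot]
      norm_num
    intro hten
    have hten' : Tendsto (fun Y : ℝ =>
        (Set.ncard {L : IntermediateField M Ω | L ∈ QS M Ω Y ∧ Ty K L 𝔪 R} : ℝ) / Y)
        atTop (𝓝 0) := by
      refine hten.congr fun Y => ?_
      rw [ncard_AS_ty]
    rcases h with ⟨L, hML, hL2, hT⟩ | hR
    · obtain ⟨rep, hrep⟩ := exists_rep M
      have hpos : 0 < Module.finrank K M := Module.finrank_pos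
      have hfin : Module.finrank K L = Module.finrank K M *
          Module.finrank M (IntermediateField.extendScalars hML) :=
        (Module.finrank_mul_finrank K M (IntermediateField.extendScalars hML)).symm
      have h2' : Module.finrank M (IntermediateField.extendScalars hML) = 2 := by
        rw [hL2] at hfin
        exact (Nat.eq_of_mul_eq_mul_left hpos (by rw [← hfin]; ring))
      obtain ⟨C, α₀, σ, hS, hσ, hn, hL⟩ :=
        (Pool.Agent.TH914.J3087.kumP M Ω rep hrep).1 (IntermediateField.extendScalars hML) h2'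
      have hT' : Ty K (IntermediateField.extendScalars hML) 𝔪 R := hT
      rw [hL] at hT'
      exact pos M Ω (fun L => Ty K L 𝔪 R) α₀ _ hS.1 h𝔫
        (fun β s hβ hs hns => pos_field ty 𝔪 R hσ hn hT' β s hβ hs hns) hten'
    · exact pos M Ω (fun L => Ty K L 𝔪 R) 1 _ one_ne_zero h𝔫
        (fun β s hβ hs hns => pos_split ty 𝔪 R hR β s hβ hs hns) hten'


theorem coreQ (mq : S_MAINQ) (K : Type) [Field K] [NumberField K] (H : Type) [Group H]
    [Finite H] (h2 : 2 ≤ Nat.card H)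
    (s : ℝ) (hs : s < 3 / 2)
    (hsum : Summable (fun M : Gal K (AlgebraicClosure K) H => (dsc M.1) ^ (-s))) {n : ℕ} (G : Subgroup (Equiv.Perm (Fin n)))
    (hG : IsC2Wr H G) (𝔪 : Ideal (𝓞 K)) (h𝔪 : 𝔪 ≠ ⊥) (R : Type) [CommRing R] [Algebra (𝓞 K) R] :
    ∃ c : ℝ, 0 ≤ c ∧
      Tendsto (fun X : ℝ =>
        (Nat.card (Quot (fun L L' : {L : IntermediateField K (AlgebraicClosure K) |
          L ∈ Cnt K G X ∧ Ty K L 𝔪 R} => Nonempty (L.1 ≃ₐ[K] L'.1))) : ℝ) / X) atTop (𝓝 c) ∧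
      (0 < c ↔ ∃ X : ℝ, ∃ L ∈ Cnt K G X, Ty K L 𝔪 R) ∧
      (0 < c ↔ ∃ M ∈ Gal K (AlgebraicClosure K) H,
        (∃ L : IntermediateField K (AlgebraicClosure K), M ≤ L ∧
          Module.finrank K L = 2 * Module.finrank K M ∧ Ty K L 𝔪 R) ∨
        Nonempty (((𝓞 M ⧸ 𝔪.map (algebraMap (𝓞 K) (𝓞 M))) ×
          (𝓞 M ⧸ 𝔪.map (algebraMap (𝓞 K) (𝓞 M)))) ≃ₐ[𝓞 K] R)) := by
  have hd : 0 < ((|discr K| : ℤ) : ℝ) ^ n := by
    have : (0 : ℤ) < |discr K| := abs_pos.2 (discr_ne_zero K)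
    have : (0 : ℝ) < ((|discr K| : ℤ) : ℝ) := by exact_mod_cast this
    positivity
  have hpos : (0 : ℝ) < Nat.card H := by exact_mod_cast (by omega : 0 < Nat.card H)
  obtain ⟨hfin, c, hc0, hlim, hiff⟩ := asymp_tyQ TYG.t_TYG LIMP.t_LIMP (POSP.t_POSP CONE.t_CONE)
    mq K (AlgebraicClosure K) H h2 s hs hsum 𝔪 h𝔪 R _ hd
  have hset : ∀ X : ℝ, {L : IntermediateField K (AlgebraicClosure K) |
      L ∈ Cnt K G X ∧ Ty K L 𝔪 R} = {L : IntermediateField K (AlgebraicClosure K) |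
      L ∈ TT K (AlgebraicClosure K) H (X * ((|discr K| : ℤ) : ℝ) ^ n) ∧ Ty K L 𝔪 R} := by
    intro X
    rw [cnt_eq K hG]
  have hlim' : Tendsto (fun X : ℝ =>
        (Nat.card (Quot (fun L L' : {L : IntermediateField K (AlgebraicClosure K) |
          L ∈ Cnt K G X ∧ Ty K L 𝔪 R} => Nonempty (L.1 ≃ₐ[K] L'.1))) : ℝ) / X) atTop
        (𝓝 (c / Nat.card H)) := by
    refine (hlim.div_const (Nat.card H : ℝ)).congr' ?_
    filter_upwards [eventually_gt_atTop (0 : ℝ)] with X hX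
    rw [card_quot_congr (hset X), ← quot_ty TYG.t_TYG LIMP.t_LIMP (POSP.t_POSP CONE.t_CONE) MAINP.t_MAINP
      (K := K) (Ω := AlgebraicClosure K) (H := H) 𝔪 R _ (hfin X hX)]
    push_cast
    field_simp
  have hiff' : 0 < c / Nat.card H ↔ 0 < c := by
    constructor
    · intro h
      by_contra hcon
      have : c = 0 := le_antisymm (not_lt.1 hcon) hc0
      rw [this, zero_div] at h
      exact lt_irrefl _ h
    · intro h
      positivity
  refine ⟨c / Nat.card H, by positivity, hlim', ?_, ?_⟩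
  · constructor
    · intro h
      have h1 := hlim.eventually (lt_mem_nhds (hiff'.1 h))
      obtain ⟨X, hX⟩ := h1.exists
      have hne : {L : IntermediateField K (AlgebraicClosure K) |
          L ∈ TT K (AlgebraicClosure K) H (X * ((|discr K| : ℤ) : ℝ) ^ n) ∧
            Ty K L 𝔪 R}.Nonempty := by
        by_contra hcon
        rw [Set.not_nonempty_iff_eq_empty] at hcon
        rw [hcon, Set.ncard_empty, Nat.cast_zero, zero_div] at hX
        exact lt_irrefl _ hX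
      rw [← hset X] at hne
      obtain ⟨L, h3, h4⟩ := hne
      exact ⟨X, L, h3, h4⟩
    · rintro ⟨X, L, hL, hT⟩
      rw [hiff', hiff]
      rw [cnt_eq K hG] at hL
      obtain ⟨M, hM⟩ := (Pool.Agent.TH365.J3099.wrIff K (AlgebraicClosure K) H L).1
        ⟨hL.1, hL.2.1⟩
      exact ⟨M, hM.1, Or.inl ⟨L, hM.2.1, hM.2.2.2.1, hT⟩⟩
  · rw [hiff', hiff]
    constructor
    · rintro ⟨M, hM, h | ⟨⟨g⟩⟩⟩
      · exact ⟨M, hM, Or.inl h⟩
      · obtain ⟨f⟩ := prod_quot (𝓞 K) (𝓞 M) 𝔪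
        exact ⟨M, hM, Or.inr ⟨f.symm.trans g⟩⟩
    · rintro ⟨M, hM, h | ⟨⟨g⟩⟩⟩
      · exact ⟨M, hM, Or.inl h⟩
      · obtain ⟨f⟩ := prod_quot (𝓞 K) (𝓞 M) 𝔪
        exact ⟨M, hM, Or.inr ⟨f.trans g⟩⟩

end Pool.Agent.H419.MK
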