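import Mathlib

/-! # Malle's conjecture over large base fields, with local conditions: statements (Mathlib only) -/

set_option autoImplicit false

open NumberField Polynomial

namespace Pool.Agent.H419.MK

/-- `g ∈ K[t][Y]` is the minimal polynomial of a generator of a Galois extension of `K(t)` with
group `H`. -/
def GalPol (K : Type) [Field K] (g : K[X][X]) (H : Type) [Group H] : Prop :=
  g.natDegree = Nat.card H ∧ ∃ (F : Type) (_ : Field F) (_ : Algebra (RatFunc K) F),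
    FiniteDimensional (RatFunc K) F ∧ IsGalois (RatFunc K) F ∧
    Nonempty ((F ≃ₐ[RatFunc K] F) ≃* H) ∧
    ∃ y : F, minpoly (RatFunc K) y = g.map (algebraMap K[X] (RatFunc K))

/-- HITZ: Hilbert's irreducibility theorem over a number field with an integral parameter. -/
def S_HITZ : Prop := ∀ (K : Type) [Field K] [NumberField K] (f : K[X][X]), f.Monic →
  Irreducible f → ∀ g : K[X], g ≠ 0 →
  ∃ a : ℤ, g.eval (a : K) ≠ 0 ∧ Irreducible (f.map (evalRingHom (a : K)))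

/-- SPC: specialisation. -/
def S_SPC : Prop := ∀ (K : Type) [Field K] [NumberField K] (g : K[X][X]) (H : Type) [Group H]
  [Finite H], g.Monic → GalPol K g H → ∀ (α μ : K), μ ≠ 0 →
  ∃ (s : ℤ) (M : IntermediateField K (AlgebraicClosure K)) (θ : M),
    FiniteDimensional K M ∧ IsGalois K M ∧ Nonempty ((M ≃ₐ[K] M) ≃* H) ∧
    minpoly K θ = g.map (evalRingHom (α + (s : K) * μ))

/-- RGP: the regular realisation over a number field, with one polynomial for all extensions. -/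
def S_RGP : Prop := ∀ (H : Type) [Group H] [Finite H], ∃ (K₁ : Type) (_ : Field K₁)
  (_ : NumberField K₁) (f : K₁[X][X]), f.Monic ∧
  ∀ (K : Type) [Field K] [CharZero K] [Algebra K₁ K],
    GalPol K (f.map (mapRingHom (algebraMap K₁ K))) H

/-- FAM: the family of specialisations near a totally split fibre. -/
def S_FAM : Prop := ∀ (H : Type) [Group H] [Fintype H], ∃ (K₀ : Type) (_ : Field K₀)
  (_ : NumberField K₀) (f : (𝓞 K₀)[X][X]) (t₀ : ℤ) (y : H → 𝓞 K₀),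
  f.Monic ∧ Function.Injective y ∧ f.map (evalRingHom (t₀ : 𝓞 K₀)) = ∏ h, (X - C (y h)) ∧
  ∀ (K : Type) [Field K] [NumberField K] [Algebra K₀ K] (μ : 𝓞 K), μ ≠ 0 →
    ∃ (s : ℤ) (M : IntermediateField K (AlgebraicClosure K)) (θ : M),
      FiniteDimensional K M ∧ IsGalois K M ∧ Nonempty ((M ≃ₐ[K] M) ≃* H) ∧
      minpoly K θ = (f.map (eval₂RingHom (algebraMap (𝓞 K₀) (𝓞 K))
        ((t₀ : 𝓞 K) + (s : 𝓞 K) * μ))).map (algebraMap (𝓞 K) K)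

/-- The automorphism fixes the prime ideal. -/
def Fixes {K M : Type} [Field K] [Field M] [Algebra K M] (σ : M ≃ₐ[K] M) (P : Ideal (𝓞 M)) :
    Prop := ∀ x : 𝓞 M, x ∈ P → RingOfIntegers.mapRingHom (σ : M →+* M) x ∈ P

/-- SPL: the primes dividing `c` split completely in the fibre. -/
def S_SPL : Prop := ∀ (K M : Type) [Field K] [NumberField K] [Field M] [NumberField M]
  [Algebra K M] [IsGalois K M] (ι : Type) [Fintype ι] (y : ι → 𝓞 K) (D c : 𝓞 K)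
  (q : (𝓞 K)[X]) (θ : 𝓞 M), Function.Injective y → D ≠ 0 → (∀ i j, i ≠ j → y i - y j ∣ D) →
  Fintype.card ι = Module.finrank K M →
  minpoly K (θ : M) = ((∏ i, (X - C (y i))) + C (c * D ^ Fintype.card ι) * q).map
    (algebraMap (𝓞 K) K) →
  ∀ P : Ideal (𝓞 M), P.IsPrime → P ≠ ⊥ → algebraMap (𝓞 K) (𝓞 M) c ∈ P →
  ∀ σ : M ≃ₐ[K] M, Fixes σ P → σ = 1

/-- A factorisation of `𝔪 𝓞_M` into `|ι|` coprime ideals with residue ring `𝓞_K / 𝔪`. -/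
structure Fac (K M : Type) [Field K] [Field M] [Algebra K M] (𝔪 : Ideal (𝓞 K)) (ι : Type)
    [Fintype ι] (J : ι → Ideal (𝓞 M)) : Prop where
  cop : ∀ i j, i ≠ j → IsCoprime (J i) (J j)
  prd : 𝔪.map (algebraMap (𝓞 K) (𝓞 M)) = ∏ i, J i
  sur : ∀ i, ∀ x : 𝓞 M, ∃ a : 𝓞 K, x - algebraMap (𝓞 K) (𝓞 M) a ∈ (J i) ^ 2
  inj : ∀ i, ∀ a : 𝓞 K, algebraMap (𝓞 K) (𝓞 M) a ∈ J i → a ∈ 𝔪
  unr : ∀ P : Ideal (𝓞 M), P.IsPrime → (∃ i, J i ≤ P) → ∀ a : 𝓞 K,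
    algebraMap (𝓞 K) (𝓞 M) a ∈ P ^ 2 → a ∈ (P.comap (algebraMap (𝓞 K) (𝓞 M))) ^ 2

/-- IDL: if all primes dividing `𝔪` split completely, there is such a factorisation. -/
def S_IDL : Prop := ∀ (K M : Type) [Field K] [NumberField K] [Field M] [NumberField M]
  [Algebra K M] [IsGalois K M] (𝔪 : Ideal (𝓞 K)), 𝔪 ≠ ⊥ →
  (∀ P : Ideal (𝓞 M), P.IsPrime → P ≠ ⊥ → 𝔪.map (algebraMap (𝓞 K) (𝓞 M)) ≤ P →
    ∀ σ : M ≃ₐ[K] M, Fixes σ P → σ = 1) →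
  ∀ (ι : Type) [Fintype ι], Fintype.card ι = Module.finrank K M →
  ∃ J : ι → Ideal (𝓞 M), Fac K M 𝔪 ι J

/-- The polynomial `X² + a X + b` defines a maximal order at the prime ideal `P`. -/
def MaxAt {A : Type} [CommRing A] (P : Ideal A) (a b : A) : Prop :=
  ∀ c : A, ¬ (c ^ 2 + a * c + b ∈ P ^ 2 ∧ 2 * c + a ∈ P)

/-- QMX: the order generated by a root is maximal at `𝔫`. -/
def S_QMX : Prop := ∀ (M L : Type) [Field M] [NumberField M] [Field L] [NumberField L]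
  [Algebra M L] (𝔫 : Ideal (𝓞 M)) (a b : 𝓞 M) (θ : 𝓞 L), 𝔫 ≠ ⊥ → Module.finrank M L = 2 →
  θ ^ 2 + algebraMap (𝓞 M) (𝓞 L) a * θ + algebraMap (𝓞 M) (𝓞 L) b = 0 →
  (∀ x : M, algebraMap M L x ≠ (θ : L)) →
  (∀ P : Ideal (𝓞 M), P.IsPrime → 𝔫 ≤ P → MaxAt P a b) →
  (∀ z : 𝓞 L, ∃ u v : 𝓞 M, z - (algebraMap (𝓞 M) (𝓞 L) u + algebraMap (𝓞 M) (𝓞 L) v * θ) ∈
    𝔫.map (algebraMap (𝓞 M) (𝓞 L))) ∧
  ∀ u v : 𝓞 M, algebraMap (𝓞 M) (𝓞 L) u + algebraMap (𝓞 M) (𝓞 L) v * θ ∈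
    𝔫.map (algebraMap (𝓞 M) (𝓞 L)) → u ∈ 𝔫 ∧ v ∈ 𝔫

/-- APR: approximation by an irreducible quadratic polynomial. -/
def S_APR : Prop := ∀ (M : Type) [Field M] [NumberField M] (ι : Type) [Fintype ι]
  (J : ι → Ideal (𝓞 M)), (∀ i, J i ≠ ⊥) → (∀ i j, i ≠ j → IsCoprime (J i) (J j)) →
  ∀ a b : ι → 𝓞 M, ∃ A B : 𝓞 M, (∀ i, A - a i ∈ (J i) ^ 2 ∧ B - b i ∈ (J i) ^ 2) ∧
    ∀ x : M, x ^ 2 + (A : M) * x + (B : M) ≠ 0

/-- `𝓞_K[X] / (𝔪, X² + a X + b)` -/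
abbrev QA (K : Type) [Field K] (𝔪 : Ideal (𝓞 K)) (a b : 𝓞 K) : Type :=
  (𝓞 K)[X] ⧸ (Ideal.span {X ^ 2 + C a * X + C b} ⊔ 𝔪.map C)

/-- ISO: the algebra `𝓞_L / 𝔪 𝓞_L` of the quadratic extension. -/
def S_ISO : Prop := ∀ (K M L : Type) [Field K] [NumberField K] [Field M] [NumberField M]
  [Field L] [NumberField L] [Algebra K M] [Algebra M L] [Algebra K L] [IsScalarTower K M L]
  (𝔪 : Ideal (𝓞 K)) (ι : Type) [Fintype ι] (J : ι → Ideal (𝓞 M)) (a b : ι → 𝓞 K)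
  (A B : 𝓞 M) (θ : 𝓞 L), 𝔪 ≠ ⊥ → Fac K M 𝔪 ι J →
  (∀ i, A - algebraMap (𝓞 K) (𝓞 M) (a i) ∈ (J i) ^ 2 ∧
    B - algebraMap (𝓞 K) (𝓞 M) (b i) ∈ (J i) ^ 2) →
  (∀ i, ∀ P : Ideal (𝓞 K), P.IsPrime → 𝔪 ≤ P → MaxAt P (a i) (b i)) →
  Module.finrank M L = 2 →
  θ ^ 2 + algebraMap (𝓞 M) (𝓞 L) A * θ + algebraMap (𝓞 M) (𝓞 L) B = 0 →
  (∀ x : M, algebraMap M L x ≠ (θ : L)) →
  Nonempty ((𝓞 L ⧸ 𝔪.map (algebraMap (𝓞 K) (𝓞 L))) ≃ₐ[𝓞 K] (∀ i, QA K 𝔪 (a i) (b i)))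

end Pool.Agent.H419.MK
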