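import Pool.Agent.H419.MK.Stm

/-! # APR: approximation by an irreducible quadratic polynomial -/

set_option autoImplicit false

open NumberField Polynomial

namespace Pool.Agent.H419.MK.APR

/-- a maximal ideal which contains none of finitely many nonzero ideals -/
lemma exists_max (M : Type) [Field M] [NumberField M] (ι : Type) [Fintype ι]
    (J : ι → Ideal (𝓞 M)) (hJ : ∀ i, J i ≠ ⊥) :
    ∃ Q : Ideal (𝓞 M), Q.IsMaximal ∧ Q ≠ ⊥ ∧ ∀ i, IsCoprime (J i) Q := by
  classical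
  have hN : ∀ i, Ideal.absNorm (J i) ≠ 0 := fun i => by
    rw [Ne, Ideal.absNorm_eq_zero_iff]
    exact hJ i
  obtain ⟨p, hple, hp⟩ := Nat.exists_infinite_primes ((∏ i, Ideal.absNorm (J i)) + 1)
  have hcop : ∀ i, Nat.Coprime p (Ideal.absNorm (J i)) := by
    intro i
    refine (Nat.Prime.coprime_iff_not_dvd hp).2 fun hd => ?_
    have h1 : p ∣ ∏ i, Ideal.absNorm (J i) := hd.trans (Finset.dvd_prod_of_mem _ (Finset.mem_univ i))
    have h2 := Nat.le_of_dvd (Nat.pos_of_ne_zero (Finset.prod_ne_zero_iff.2 fun i _ => hN i)) h1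
    omega
  have hnu : ¬ IsUnit ((p : ℕ) : 𝓞 M) := by
    intro hu
    have h1 : (Ideal.span {((p : ℕ) : 𝓞 M)}) = ⊤ := Ideal.span_singleton_eq_top.2 hu
    have h2 : Ideal.absNorm (Ideal.span {((p : ℕ) : 𝓞 M)}) = 1 := by
      rw [h1]
      exact Ideal.absNorm_top
    rw [Ideal.absNorm_span_singleton] at h2
    have h3 : Algebra.norm ℤ ((p : ℕ) : 𝓞 M) = (p : ℤ) ^ Module.finrank ℤ (𝓞 M) := by
      have := Algebra.norm_algebraMap_of_basis (RingOfIntegers.basis M) (p : ℤ)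
      rw [Module.finrank_eq_card_basis (RingOfIntegers.basis M), ← this]
      norm_num
    rw [h3, Int.natAbs_pow, Int.natAbs_natCast] at h2
    have h4 : Module.finrank ℤ (𝓞 M) ≠ 0 := by
      rw [RingOfIntegers.rank]
      exact Module.finrank_pos.ne'
    have h5 := (Nat.pow_eq_one.1 h2).resolve_right h4
    exact hp.one_lt.ne' h5
  obtain ⟨Q, hQ, hpQ⟩ := exists_max_ideal_of_mem_nonunits (a := ((p : ℕ) : 𝓞 M)) hnu
  refine ⟨Q, hQ, ?_, fun i => ?_⟩
  · intro h0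
    rw [h0] at hpQ
    have : ((p : ℕ) : 𝓞 M) = 0 := hpQ
    exact hp.ne_zero (Nat.cast_eq_zero.1 this)
  · rw [Ideal.isCoprime_iff_sup_eq, Ideal.eq_top_iff_one]
    have h1 : ((Ideal.absNorm (J i) : ℕ) : 𝓞 M) ∈ J i ⊔ Q := Ideal.mem_sup_left (Ideal.absNorm_mem (J i))
    have h2 : ((p : ℕ) : 𝓞 M) ∈ J i ⊔ Q := Ideal.mem_sup_right hpQ
    obtain ⟨u, v, huv⟩ := Nat.isCoprime_iff_coprime.2 (hcop i)
    have h3 : ((u * (p : ℤ) + v * (Ideal.absNorm (J i) : ℤ) : ℤ) : 𝓞 M) = 1 := by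
      rw [huv]
      exact Int.cast_one
    rw [← h3]
    push_cast
    exact Ideal.add_mem _ (Ideal.mul_mem_left _ _ h2) (Ideal.mul_mem_left _ _ h1)

theorem t_APR : S_APR := by
  intro M _ _ ι _ J hJ hcop a b
  classical
  obtain ⟨Q, hQ, hQ0, hJQ⟩ := exists_max M ι J hJ
  let v : IsDedekindDomain.HeightOneSpectrum (𝓞 M) := ⟨Q, hQ.isPrime, hQ0⟩
  obtain ⟨p, hp⟩ := v.intValuation_exists_uniformizer
  have hp1 : p ∈ Q := by
    have := (v.intValuation_le_pow_iff_mem p 1).1 (by rw [hp]; norm_num)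
    rwa [pow_one] at this
  have hp2 : p ∉ Q ^ 2 := by
    intro h
    have := (v.intValuation_le_pow_iff_mem p 2).2 h
    rw [hp, WithZero.exp_le_exp] at this
    norm_num at this
  let I : Option ι → Ideal (𝓞 M) := fun o => o.elim (Q ^ 2) (fun i => J i ^ 2)
  have hI : Pairwise (Function.onFun IsCoprime I) := by
    intro o o' hne
    match o, o' with
    | none, none => exact absurd rfl hne
    | none, some i => exact (IsCoprime.pow (hJQ i)).symm
    | some i, none => exact IsCoprime.pow (hJQ i)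
    | some i, some j => exact IsCoprime.pow (hcop i j fun h => hne (by rw [h]))
  obtain ⟨A, hA⟩ := Ideal.exists_forall_sub_mem_ideal hI (fun o => o.elim 0 a)
  obtain ⟨B, hB⟩ := Ideal.exists_forall_sub_mem_ideal hI (fun o => o.elim p b)
  refine ⟨A, B, fun i => ⟨hA (some i), hB (some i)⟩, ?_⟩
  intro x hx
  have hA0 : A ∈ Q ^ 2 := by
    have : A - 0 ∈ Q ^ 2 := hA none
    rwa [sub_zero] at this
  have hB0 : B - p ∈ Q ^ 2 := hB none
  have hint : IsIntegral (𝓞 M) x := by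
    refine ⟨X ^ 2 + C A * X + C B, by monicity!, ?_⟩
    rw [eval₂_add, eval₂_add, eval₂_mul, eval₂_C, eval₂_C, eval₂_X, eval₂_pow, eval₂_X]
    exact hx
  obtain ⟨z, hz⟩ := (IsIntegrallyClosed.isIntegral_iff (R := 𝓞 M) (K := M)).1 hint
  have hz' : z ^ 2 + A * z + B = 0 := by
    apply RingOfIntegers.ext
    rw [← hz] at hx
    exact hx
  have hQQ : Q ^ 2 ≤ Q := Ideal.pow_le_self (by norm_num)
  have hz1 : z ∈ Q := by
    have h1 : z ^ 2 ∈ Q := by
      have e : z ^ 2 = -(A * z) - (B - p) - p := by linear_combination hz'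
      rw [e]
      refine Q.sub_mem (Q.sub_mem (Q.neg_mem (Q.mul_mem_right _ (hQQ hA0))) (hQQ hB0)) hp1
    exact hQ.isPrime.mem_of_pow_mem 2 h1
  apply hp2
  have e : p = -(z ^ 2) - A * z - (B - p) := by linear_combination hz'
  rw [e]
  exact (Q ^ 2).sub_mem ((Q ^ 2).sub_mem ((Q ^ 2).neg_mem (Ideal.pow_mem_pow hz1 2)) ((Q ^ 2).mul_mem_right _ hA0)) hB0

end Pool.Agent.H419.MK.APR
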