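import Pool.Agent.H419.MK.Stm

/-! # MK-FAM: integral polynomial with a totally split fibre -/

set_option autoImplicit false

open NumberField Polynomial

namespace Pool.Agent.H419.MK.FAM

/-- the roots of a separable split polynomial, labelled -/
theorem label {M : Type} [Field M] {q : M[X]} (hq : q.Monic) (hs : q.Splits) (hsep : q.Separable)
    (H : Type) [Fintype H] (hn : q.natDegree = Fintype.card H) :
    ∃ r : H → M, Function.Injective r ∧ q = ∏ h, (X - C (r h)) := by
  classical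
  have hnd : q.roots.Nodup := nodup_roots hsep
  have hcard : Fintype.card H = Fintype.card q.roots.toFinset := by
    rw [Fintype.card_coe, Multiset.toFinset_card_of_nodup hnd, ← hs.natDegree_eq_card_roots, hn]
  let e : H ≃ q.roots.toFinset := Fintype.equivOfCardEq hcard
  refine ⟨fun h => (e h : M), fun a b h => e.injective (Subtype.ext h), ?_⟩
  rw [Equiv.prod_comp e (fun x : q.roots.toFinset => (X - C (x : M)))]
  rw [Finset.prod_coe_sort q.roots.toFinset (fun x : M => (X - C x))]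
  unfold Finset.prod
  rw [Multiset.toFinset_val, hnd.dedup]
  exact hs.eq_prod_roots_of_monic hq

/-- minimal polynomial of a multiple -/
theorem minpoly_mul {K M : Type} [Field K] [Field M] [Algebra K M] {θ : M} (hθ : IsIntegral K θ)
    {c : K} (hc : c ≠ 0) :
    minpoly K (algebraMap K M c * θ) = (minpoly K θ).scaleRoots c := by
  have h1 : aeval (algebraMap K M c * θ) ((minpoly K θ).scaleRoots c) = 0 :=
    scaleRoots_aeval_eq_zero (minpoly.aeval K θ)
  have hint : IsIntegral K (algebraMap K M c * θ) := isIntegral_algebraMap.mul hθ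
  have h2 : minpoly K (algebraMap K M c * θ) ∣ (minpoly K θ).scaleRoots c := minpoly.dvd K _ h1
  have h3 : aeval θ ((minpoly K (algebraMap K M c * θ)).scaleRoots c⁻¹) = 0 := by
    have h := scaleRoots_aeval_eq_zero (r := c⁻¹) (minpoly.aeval K (algebraMap K M c * θ))
    rwa [← mul_assoc, ← map_mul, inv_mul_cancel₀ hc, map_one, one_mul] at h
  have h4 := natDegree_le_of_dvd (minpoly.dvd K θ h3) (scaleRoots_ne_zero (minpoly.ne_zero hint) _)
  rw [natDegree_scaleRoots] at h4
  exact (eq_of_monic_of_dvd_of_natDegree_le (minpoly.monic hint)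
    ((monic_scaleRoots_iff c).2 (minpoly.monic hθ)) h2 (by rw [natDegree_scaleRoots]; exact h4)).symm

theorem prod_scaleRoots {M : Type} [Field M] {ι : Type} (s : Finset ι) (r : ι → M) (c : M) :
    (∏ h ∈ s, (X - C (r h))).scaleRoots c = ∏ h ∈ s, (X - C (c * r h)) := by
  classical
  induction s using Finset.induction_on with
  | empty => simp
  | insert a s ha ih =>
    rw [Finset.prod_insert ha, Finset.prod_insert ha, mul_scaleRoots_of_noZeroDivisors, ih,
      X_sub_C_scaleRoots, mul_comm (r a) c]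

/-- the integral model -/
theorem model {K₁ K₀ : Type} [Field K₁] [Field K₀] [NumberField K₀] [Algebra K₁ K₀]
    (f₁ : K₁[X][X]) (hm : f₁.Monic) : ∃ (N : ℤ) (f : (𝓞 K₀)[X][X]), N ≠ 0 ∧ f.Monic ∧
      f.map (mapRingHom (algebraMap (𝓞 K₀) K₀)) =
        (f₁.map (mapRingHom (algebraMap K₁ K₀))).scaleRoots (C (N : K₀)) := by
  classical
  obtain ⟨N, hN, hS⟩ := exists_integral_multiples ℤ ℚ (L := K₀)
    (f₁.support.biUnion fun i => (f₁.coeff i).support.image fun j =>
      algebraMap K₁ K₀ ((f₁.coeff i).coeff j))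
  have hP : (f₁.map (mapRingHom (algebraMap K₁ K₀))).Monic := hm.map _
  have hint : ∀ i j, IsIntegral ℤ ((N : K₀) * algebraMap K₁ K₀ ((f₁.coeff i).coeff j)) := by
    intro i j
    by_cases h : (f₁.coeff i).coeff j = 0
    · rw [h, map_zero, mul_zero]; exact isIntegral_zero
    · have h1 := hS (algebraMap K₁ K₀ ((f₁.coeff i).coeff j)) (by
        rw [Finset.mem_biUnion]
        refine ⟨i, ?_, Finset.mem_image_of_mem _ (mem_support_iff.2 h)⟩
        rw [mem_support_iff]
        rintro h0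
        rw [h0, coeff_zero] at h
        exact h rfl)
      rwa [zsmul_eq_mul] at h1
  have hlift : (f₁.map (mapRingHom (algebraMap K₁ K₀))).scaleRoots (C (N : K₀)) ∈
      lifts (mapRingHom (algebraMap (𝓞 K₀) K₀)) := by
    rw [lifts_iff_coeff_lifts]
    intro i
    rw [coeff_scaleRoots]
    rcases lt_trichotomy i (f₁.map (mapRingHom (algebraMap K₁ K₀))).natDegree with h | h | h
    · obtain ⟨k, hk⟩ : ∃ k, (f₁.map (mapRingHom (algebraMap K₁ K₀))).natDegree - i = k + 1 :=
        ⟨(f₁.map (mapRingHom (algebraMap K₁ K₀))).natDegree - i - 1, by omega⟩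
      rw [hk]
      have : (f₁.map (mapRingHom (algebraMap K₁ K₀))).coeff i * C (N : K₀) ^ (k + 1) ∈
          (mapRingHom (algebraMap (𝓞 K₀) K₀)).range := by
        rw [mem_map_range]
        intro j
        rw [← C_pow, coeff_mul_C, coeff_map, coe_mapRingHom, coeff_map]
        have h2 : IsIntegral ℤ (algebraMap K₁ K₀ ((f₁.coeff i).coeff j) * (N : K₀) ^ (k + 1)) := by
          have h3 : algebraMap K₁ K₀ ((f₁.coeff i).coeff j) * (N : K₀) ^ (k + 1) =
              (N : K₀) ^ k * ((N : K₀) * algebraMap K₁ K₀ ((f₁.coeff i).coeff j)) := by ring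
          rw [h3]
          have h4 : IsIntegral ℤ (N : K₀) := isIntegral_algebraMap (R := ℤ) (x := N)
          exact (h4.pow k).mul (hint i j)
        obtain ⟨z, hz⟩ := (IsIntegralClosure.isIntegral_iff (A := 𝓞 K₀)).1 h2
        exact ⟨z, hz⟩
      exact this
    · rw [h, tsub_self, pow_zero, mul_one]
      exact ⟨1, by rw [map_one]; exact hP.symm⟩
    · rw [coeff_eq_zero_of_natDegree_lt h, zero_mul]
      exact ⟨0, map_zero _⟩
  obtain ⟨f, hf1, _, hf3⟩ := lifts_and_natDegree_eq_and_monic hlift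
    ((monic_scaleRoots_iff _).2 hP)
  exact ⟨N, f, hN, hf3, hf1⟩

theorem aux (H : Type) [Group H] [Fintype H] (K₁ K₀ : Type) [Field K₁] [Field K₀] [NumberField K₀]
    [Algebra K₁ K₀] (f₁ : K₁[X][X]) (hm : f₁.Monic)
    (hg : ∀ (K : Type) [Field K] [CharZero K] [Algebra K₁ K],
      GalPol K (f₁.map (mapRingHom (algebraMap K₁ K))) H) (h2 : S_SPC) (t₀ : ℤ) (r : H → K₀)
    (hr : Function.Injective r)
    (hprod : (f₁.map (evalRingHom (t₀ : K₁))).map (algebraMap K₁ K₀) = ∏ h, (X - C (r h))) :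
    ∃ (f : (𝓞 K₀)[X][X]) (y : H → 𝓞 K₀),
      f.Monic ∧ Function.Injective y ∧ f.map (evalRingHom (t₀ : 𝓞 K₀)) = ∏ h, (X - C (y h)) ∧
      ∀ (K : Type) [Field K] [NumberField K] [Algebra K₀ K] (μ : 𝓞 K), μ ≠ 0 →
        ∃ (s : ℤ) (M : IntermediateField K (AlgebraicClosure K)) (θ : M),
          FiniteDimensional K M ∧ IsGalois K M ∧ Nonempty ((M ≃ₐ[K] M) ≃* H) ∧
          minpoly K θ = (f.map (eval₂RingHom (algebraMap (𝓞 K₀) (𝓞 K))
            ((t₀ : 𝓞 K) + (s : 𝓞 K) * μ))).map (algebraMap (𝓞 K) K) := by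
  obtain ⟨N, f, hN, hfm, hf⟩ := model (K₀ := K₀) f₁ hm
  have hN0 : (N : K₀) ≠ 0 := Int.cast_ne_zero.2 hN
  -- specialisations of the model
  have hspec : ∀ (K : Type) [Field K] (ψ : K₀[X] →+* K) (c : K),
      f.map (ψ.comp (mapRingHom (algebraMap (𝓞 K₀) K₀))) =
        (f₁.map (ψ.comp (mapRingHom (algebraMap K₁ K₀)))).scaleRoots (ψ (C (N : K₀))) := by
    intro K _ ψ c
    rw [← Polynomial.map_map, hf, map_scaleRoots, Polynomial.map_map]
    rw [(hm.map _).leadingCoeff, map_one]
    exact one_ne_zero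
  -- the fibre over `t₀`
  have hfib : (f.map (evalRingHom (t₀ : 𝓞 K₀))).map (algebraMap (𝓞 K₀) K₀) =
      ∏ h, (X - C ((N : K₀) * r h)) := by
    have h1 : (algebraMap (𝓞 K₀) K₀).comp (evalRingHom (t₀ : 𝓞 K₀)) =
        (evalRingHom (t₀ : K₀)).comp (mapRingHom (algebraMap (𝓞 K₀) K₀)) := by
      apply Polynomial.ringHom_ext
      · intro a; simp
      · simp
    have h3 : (evalRingHom (t₀ : K₀)).comp (mapRingHom (algebraMap K₁ K₀)) =
        (algebraMap K₁ K₀).comp (evalRingHom (t₀ : K₁)) := by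
      apply Polynomial.ringHom_ext
      · intro a; simp
      · simp
    rw [Polynomial.map_map, h1, hspec K₀ (evalRingHom (t₀ : K₀)) 0, h3, ← Polynomial.map_map, hprod]
    rw [prod_scaleRoots]
    simp
  have hint : ∀ h, ∃ z : 𝓞 K₀, algebraMap (𝓞 K₀) K₀ z = (N : K₀) * r h := by
    intro h
    have h1 : IsIntegral (𝓞 K₀) ((N : K₀) * r h) := by
      refine ⟨f.map (evalRingHom (t₀ : 𝓞 K₀)), hfm.map _, ?_⟩
      rw [← eval_map, hfib, eval_prod]
      apply Finset.prod_eq_zero (Finset.mem_univ h)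
      simp
    have h2 : IsIntegral ℤ ((N : K₀) * r h) := isIntegral_trans _ h1
    exact (IsIntegralClosure.isIntegral_iff (A := 𝓞 K₀)).1 h2
  choose y hy using hint
  have hinj : Function.Injective (algebraMap (𝓞 K₀) K₀) := RingOfIntegers.coe_injective
  refine ⟨f, y, hfm, ?_, ?_, ?_⟩
  · intro a b hab
    have : (N : K₀) * r a = (N : K₀) * r b := by rw [← hy a, ← hy b, hab]
    exact hr (mul_left_cancel₀ hN0 this)
  · apply Polynomial.map_injective _ hinj
    rw [hfib, Polynomial.map_prod]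
    refine Finset.prod_congr rfl fun h _ => ?_
    rw [Polynomial.map_sub, map_X, map_C, hy]
  · intro K _ _ _ μ hμ
    letI : Algebra K₁ K := ((algebraMap K₀ K).comp (algebraMap K₁ K₀)).toAlgebra
    have halg : algebraMap K₁ K = (algebraMap K₀ K).comp (algebraMap K₁ K₀) := rfl
    have hμ' : (μ : K) ≠ 0 := by
      intro h
      have h' : (algebraMap (𝓞 K) K) μ = (algebraMap (𝓞 K) K) 0 := by rw [map_zero]; exact h
      exact hμ (RingOfIntegers.coe_injective h')
    obtain ⟨s, M, θ₁, hfd, hgal, hiso, hmin⟩ := h2 K (f₁.map (mapRingHom (algebraMap K₁ K))) H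
      (hm.map _) (hg K) (t₀ : K) (μ : K) hμ'
    have hNK : (N : K) ≠ 0 := Int.cast_ne_zero.2 hN
    refine ⟨s, M, algebraMap K M (N : K) * θ₁, hfd, hgal, hiso, ?_⟩
    have hθ : IsIntegral K θ₁ := Algebra.IsIntegral.isIntegral θ₁
    rw [minpoly_mul hθ hNK, hmin, Polynomial.map_map, Polynomial.map_map]
    obtain ⟨c, hc⟩ : ∃ c : K, c = (t₀ : K) + (s : K) * (μ : K) := ⟨_, rfl⟩
    have h1 : (algebraMap (𝓞 K) K).comp (eval₂RingHom (algebraMap (𝓞 K₀) (𝓞 K))
        ((t₀ : 𝓞 K) + (s : 𝓞 K) * μ)) =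
        ((evalRingHom c).comp (mapRingHom (algebraMap K₀ K))).comp
          (mapRingHom (algebraMap (𝓞 K₀) K₀)) := by
      apply Polynomial.ringHom_ext
      · intro a
        simp only [RingHom.comp_apply, coe_eval₂RingHom, eval₂_C, coe_mapRingHom, map_C,
          coe_evalRingHom, eval_C]
        rw [← IsScalarTower.algebraMap_apply (𝓞 K₀) (𝓞 K) K,
          ← IsScalarTower.algebraMap_apply (𝓞 K₀) K₀ K]
      · simp [hc]
    rw [h1, hspec K ((evalRingHom c).comp (mapRingHom (algebraMap K₀ K))) 0, halg]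
    have h3 : ((evalRingHom c).comp (mapRingHom (algebraMap K₀ K))).comp
        (mapRingHom (algebraMap K₁ K₀)) =
        (evalRingHom c).comp (mapRingHom ((algebraMap K₀ K).comp (algebraMap K₁ K₀))) := by
      apply Polynomial.ringHom_ext
      · intro a; simp
      · simp
    rw [h3, ← hc]
    congr 1
    simp

theorem t_FAM (h1 : S_RGP) (h2 : S_SPC) : S_FAM := by
  intro H _ _
  obtain ⟨K₁, _, _, f₁, hm, hg⟩ := h1 H
  have hid : f₁.map (mapRingHom (algebraMap K₁ K₁)) = f₁ := by
    have : mapRingHom (algebraMap K₁ K₁) = RingHom.id _ := by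
      apply Polynomial.ringHom_ext
      · intro a; simp
      · simp
    rw [this, Polynomial.map_id]
  have hg1 := hg K₁
  rw [hid] at hg1
  obtain ⟨t₀, M, θ, hfd, hgal, _, hmin⟩ := h2 K₁ f₁ H hm hg1 0 1 one_ne_zero
  rw [zero_add, mul_one] at hmin
  haveI := hfd
  haveI := hgal
  haveI : NumberField M := NumberField.of_module_finite K₁ M
  have hθ : IsIntegral K₁ θ := Algebra.IsIntegral.isIntegral θ
  have hsep : ((minpoly K₁ θ).map (algebraMap K₁ M)).Separable :=
    Polynomial.Separable.map (show (minpoly K₁ θ).Separable from IsGalois.separable K₁ θ)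
  have hspl : ((minpoly K₁ θ).map (algebraMap K₁ M)).Splits := IsGalois.splits K₁ θ
  have hdeg : ((minpoly K₁ θ).map (algebraMap K₁ M)).natDegree = Fintype.card H := by
    rw [(minpoly.monic hθ).natDegree_map, hmin, hm.natDegree_map, hg1.1, Nat.card_eq_fintype_card]
  obtain ⟨r, hr, hprod⟩ := label ((minpoly.monic hθ).map _) hspl hsep H hdeg
  rw [hmin] at hprod
  obtain ⟨f, y, h3, h4, h5, h6⟩ := aux H K₁ M f₁ hm hg h2 t₀ r hr hprod
  exact ⟨M, inferInstance, inferInstance, f, t₀, y, h3, h4, h5, h6⟩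

end Pool.Agent.H419.MK.FAM
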