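import Pool.Graph.R_pool_sql_team_seeded_3997aac3.Q258.LQ.Fin
import Pool.Graph.R_seed8.TH228.J3101
import Pool.Graph.R_seed8.TH979.ML.Rel2

/-! # Few Galois extensions with a given group: the condition `4 u ^ 2 < 3 |H|` -/

set_option autoImplicit false
set_option linter.unusedSectionVars false

open NumberField Filter Topology
open Pool.Agent.TH444.ML

namespace Pool.Agent.H419.MK

/-- there are few Galois extensions with group `H`, if `H` has a core-free subgroup of index `u`,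
`4 u ^ 2 < 3 |H|` -/
theorem few_gal (K Ω H : Type) [Field K] [NumberField K] [Field Ω] [Algebra K Ω]
    [IsAlgClosure K Ω] [Group H] [Finite H] (U : Subgroup H) (hU : U.normalCore = ⊥)
    (hc : 4 * U.index ^ 2 < 3 * Nat.card H) :
    ∃ t : ℝ, 0 < t ∧ t < 3 / 2 ∧ ∀ s : ℝ, t < s →
      Summable (fun M : Gal K Ω H => (dsc M.1) ^ (-s)) := by
  classical
  obtain ⟨C, hC⟩ := Pool.Agent.TH979.J3100.hermiteRel K Ω U.index
  have key : ∀ M : Gal K Ω H, ∃ F : IntermediateField K Ω, FiniteDimensional K F ∧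
      Module.finrank K F = U.index ∧ F ≤ M.1 ∧ dsc F ^ Nat.card U ≤ dsc M.1 ∧
      ∀ N : IntermediateField K Ω, Normal K N → F ≤ N → N ≤ M.1 → N = M.1 := by
    rintro ⟨M, hfd, hg, ⟨e⟩⟩
    exact Pool.Agent.TH228.J3101.main M e U hU
  choose F hfd hfr hFM hdsc hN using key
  have inj : Function.Injective F := by
    intro M1 M2 h12
    have g1 : IsGalois K M1.1 := M1.2.2.1
    have g2 : IsGalois K M2.1 := M2.2.2.1
    have hn : Normal K (M1.1 ⊓ M2.1 : IntermediateField K Ω) := inferInstance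
    have e1 := hN M1 (M1.1 ⊓ M2.1) hn (le_inf (hFM M1) (by rw [h12]; exact hFM M2)) inf_le_left
    have e2 := hN M2 (M1.1 ⊓ M2.1) hn (le_inf (by rw [← h12]; exact hFM M1) (hFM M2))
      inf_le_right
    exact Subtype.ext (e1.symm.trans e2)
  have hu : 1 ≤ U.index := Nat.one_le_iff_ne_zero.2 Subgroup.index_ne_zero_of_finite
  have hk : 0 < Nat.card U := Nat.card_pos
  have hmul : U.index * Nat.card U = Nat.card H := Subgroup.index_mul_card U
  have huR : (1 : ℝ) ≤ U.index := by exact_mod_cast hu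
  have hkR : (0 : ℝ) < Nat.card U := by exact_mod_cast hk
  have hcR : 4 * (U.index : ℝ) < 3 * Nat.card U := by
    rw [← hmul] at hc
    have h1 : U.index * (4 * U.index) < U.index * (3 * Nat.card U) := by nlinarith
    have h2 : 4 * U.index < 3 * Nat.card U := lt_of_mul_lt_mul_left h1 (Nat.zero_le _)
    exact_mod_cast h2
  set t : ℝ := 2 * U.index / Nat.card U with ht
  have ht0 : 0 < t := by positivity
  have ht2 : t < 3 / 2 := by
    rw [ht, div_lt_iff₀ hkR]
    linarith
  refine ⟨t, ht0, ht2, ?_⟩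
  intro s hs
  refine Pool.Agent.Q258.LQ.sumOfCount2 K Ω (Gal K Ω H) C t s ht0 hs ?_
  intro X hX
  have hX0 : 0 < X := by linarith
  set Z : ℝ := X ^ ((1 : ℝ) / Nat.card U) with hZ
  have hZ1 : 1 ≤ Z := Real.one_le_rpow hX (by positivity)
  obtain ⟨hfin, hle⟩ := hC Z hZ1
  set T : Set (IntermediateField K Ω) := {F : IntermediateField K Ω |
    FiniteDimensional K F ∧ Module.finrank K F = U.index ∧ dsc F ≤ Z} with hT
  set S : Set (IntermediateField K Ω) := {L : IntermediateField K Ω | L ∈ Gal K Ω H ∧ dsc L ≤ X}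
    with hS
  set g : IntermediateField K Ω → IntermediateField K Ω := fun L =>
    if h : L ∈ Gal K Ω H then F ⟨L, h⟩ else L with hg
  have hgT : ∀ L ∈ S, g L ∈ T := by
    rintro L ⟨hL, hLX⟩
    have hgL : g L = F ⟨L, hL⟩ := by rw [hg]; simp only [dif_pos hL]
    rw [hgL]
    refine ⟨hfd _, hfr _, ?_⟩
    have h1 : dsc (F ⟨L, hL⟩) ^ Nat.card U ≤ X := (hdsc ⟨L, hL⟩).trans hLX
    have h0 : 0 ≤ dsc (F ⟨L, hL⟩) := by
      have := one_le_dsc (F ⟨L, hL⟩)
      linarith
    rw [hZ]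
    calc dsc (F ⟨L, hL⟩) = (dsc (F ⟨L, hL⟩) ^ Nat.card U) ^ ((1 : ℝ) / Nat.card U) := by
          rw [← Real.rpow_natCast, ← Real.rpow_mul h0, mul_one_div_cancel hkR.ne', Real.rpow_one]
      _ ≤ X ^ ((1 : ℝ) / Nat.card U) := Real.rpow_le_rpow (by positivity) h1 (by positivity)
  have hginj : Set.InjOn g S := by
    rintro L ⟨hL, -⟩ L' ⟨hL', -⟩ h
    have h1 : g L = F ⟨L, hL⟩ := by rw [hg]; simp only [dif_pos hL]
    have h2 : g L' = F ⟨L', hL'⟩ := by rw [hg]; simp only [dif_pos hL']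
    rw [h1, h2] at h
    exact congrArg Subtype.val (inj h)
  refine ⟨Set.Finite.of_finite_image (hfin.subset (Set.image_subset_iff.2 hgT)) hginj, ?_⟩
  have h1 : Set.ncard S ≤ Set.ncard T := Set.ncard_le_ncard_of_injOn g hgT hginj hfin
  have h2 : C * Z ^ (2 * U.index) = C * X ^ t := by
    congr 1
    rw [hZ, ← Real.rpow_natCast, ← Real.rpow_mul hX0.le, ht]
    congr 1
    push_cast
    ring
  rw [← h2]
  exact le_trans (by exact_mod_cast h1) hle

end Pool.Agent.H419.MK
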