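import Pool.Agent.H419.MK.Core
import Pool.Agent.H419.MK.Stm

/-! # Existence of the prescribed algebras `𝓞_L / 𝔪 𝓞_L` over large base fields -/

set_option autoImplicit false
set_option linter.unusedSectionVars false

open NumberField Polynomial
open Pool.Agent.TH444.ML
open Pool.Agent.H419.LT

namespace Pool.Agent.H419.MK

/-- Taylor expansion: the polynomial at `t + μ` and at `t`. -/
theorem taylor {A B : Type} [CommRing A] [CommRing B] (i : A →+* B) (f : A[X][X]) (t : ℤ)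
    (s μ : B) : ∃ q : B[X], f.map (eval₂RingHom i ((t : B) + s * μ)) =
      (f.map (evalRingHom (t : A))).map i + C μ * q := by
  have h1 : f.map (evalRingHom (t : A)) = f.map (evalRingHom (t : A)) := rfl
  have h2 : (f.map (evalRingHom (t : A))).map i = f.map (eval₂RingHom i (t : B)) := by
    rw [Polynomial.map_map]
    congr 1
    apply Polynomial.ringHom_ext
    · intro a; simp
    · simp
  rw [h2]
  have h3 : C μ ∣ f.map (eval₂RingHom i ((t : B) + s * μ)) - f.map (eval₂RingHom i (t : B)) := by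
    rw [C_dvd_iff_dvd_coeff]
    intro k
    rw [coeff_sub, coeff_map, coeff_map, coe_eval₂RingHom, coe_eval₂RingHom,
      eval₂_eq_eval_map, eval₂_eq_eval_map]
    refine dvd_trans ?_ (sub_dvd_eval_sub _ _ _)
    exact ⟨s, by ring⟩
  obtain ⟨q, hq⟩ := h3
  exact ⟨q, by rw [← hq]; ring⟩

/-- all primes dividing `𝔪` split completely in a suitable extension -/
theorem exists_split (fam : S_FAM) (spl : S_SPL) (H : Type) [Group H] [Fintype H] :
    ∃ (K₀ : Type) (_ : Field K₀) (_ : NumberField K₀), ∀ (K : Type) [Field K] [NumberField K]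
      [Algebra K₀ K] (𝔪 : Ideal (𝓞 K)), 𝔪 ≠ ⊥ →
      ∃ M ∈ Gal K (AlgebraicClosure K) H, ∀ P : Ideal (𝓞 M), P.IsPrime → P ≠ ⊥ →
        𝔪.map (algebraMap (𝓞 K) (𝓞 M)) ≤ P → ∀ σ : M ≃ₐ[K] M, Fixes σ P → σ = 1 := by
  classical
  obtain ⟨K₀, i1, i2, f, t₀, y, hf, hy, hfib, hspec⟩ := fam H
  refine ⟨K₀, i1, i2, ?_⟩
  intro K _ _ _ 𝔪 h𝔪
  have hinj : Function.Injective (algebraMap (𝓞 K₀) (𝓞 K)) :=
    FaithfulSMul.algebraMap_injective (𝓞 K₀) (𝓞 K)
  obtain ⟨c, hc, hc0⟩ := Submodule.exists_mem_ne_zero_of_ne_bot h𝔪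
  set y' : H → 𝓞 K := fun h => algebraMap (𝓞 K₀) (𝓞 K) (y h) with hy'
  have hy'i : Function.Injective y' := hinj.comp hy
  set D : 𝓞 K := ∏ p ∈ (Finset.univ : Finset H).offDiag, (y' p.1 - y' p.2) with hD
  have hD0 : D ≠ 0 := by
    rw [hD, Finset.prod_ne_zero_iff]
    intro p hp
    rw [Finset.mem_offDiag] at hp
    exact sub_ne_zero.2 (fun h => hp.2.2 (hy'i h))
  have hDd : ∀ i j, i ≠ j → y' i - y' j ∣ D := by
    intro i j hij
    have hmem : (i, j) ∈ (Finset.univ : Finset H).offDiag :=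
      Finset.mem_offDiag.2 ⟨Finset.mem_univ i, Finset.mem_univ j, hij⟩
    exact Finset.dvd_prod_of_mem (fun p : H × H => y' p.1 - y' p.2) hmem
  set μ : 𝓞 K := c * D ^ Fintype.card H with hμ
  have hμ0 : μ ≠ 0 := mul_ne_zero hc0 (pow_ne_zero _ hD0)
  obtain ⟨s, M, θ, hM1, hM2, hM3, hθ⟩ := hspec K μ hμ0
  refine ⟨M, ⟨hM1, hM2, hM3⟩, ?_⟩
  have : NumberField M := nf_of_fd M
  obtain ⟨q, hq⟩ := taylor (algebraMap (𝓞 K₀) (𝓞 K)) f t₀ (s : 𝓞 K) μ
  have hq' : f.map (eval₂RingHom (algebraMap (𝓞 K₀) (𝓞 K)) ((t₀ : 𝓞 K) + (s : 𝓞 K) * μ)) =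
      (∏ h, (X - C (y' h))) + C μ * q := by
    rw [hq, hfib, Polynomial.map_prod]
    simp [hy']
  have hint : IsIntegral (𝓞 K) θ := by
    refine ⟨f.map (eval₂RingHom (algebraMap (𝓞 K₀) (𝓞 K)) ((t₀ : 𝓞 K) + (s : 𝓞 K) * μ)),
      hf.map _, ?_⟩
    have h1 := minpoly.aeval K θ
    rw [hθ, aeval_def, eval₂_map] at h1
    rw [← h1]
    congr 1
  have htow : IsScalarTower ℤ (𝓞 K) M := IsScalarTower.of_algebraMap_eq (fun n => by simp)
  have hint' : IsIntegral ℤ θ := isIntegral_trans θ hint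
  set θ' : 𝓞 M := ⟨θ, hint'⟩ with hθ'
  have hcard : Fintype.card H = Module.finrank K M := by
    obtain ⟨e⟩ := hM3
    rw [← IsGalois.card_aut_eq_finrank K M, ← Nat.card_eq_fintype_card]
    exact (Nat.card_congr e.toEquiv).symm
  have hmin : minpoly K (θ' : M) = ((∏ i, (X - C (y' i))) + C (c * D ^ Fintype.card H) * q).map
      (algebraMap (𝓞 K) K) := by
    rw [← hμ, ← hq']
    exact hθ
  intro P hP hPb hmP σ hσ
  refine spl K M H y' D c q θ' hy'i hD0 hDd hcard hmin P hP hPb ?_ σ hσ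
  exact hmP (Ideal.mem_map_of_mem _ hc)

/-- the quadratic extension generated by a root -/
theorem exists_quad {K : Type} [Field K] [NumberField K] (M : IntermediateField K (AlgebraicClosure K))
    [FiniteDimensional K M] [NumberField M] (A B : 𝓞 M)
    (hAB : ∀ x : M, x ^ 2 + (A : M) * x + (B : M) ≠ 0) :
    ∃ (L : IntermediateField M (AlgebraicClosure K)) (_ : NumberField L) (θ : 𝓞 L),
      Module.finrank M L = 2 ∧
      θ ^ 2 + algebraMap (𝓞 M) (𝓞 L) A * θ + algebraMap (𝓞 M) (𝓞 L) B = 0 ∧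
      (∀ x : M, algebraMap M L x ≠ (θ : L)) := by
  set p : (M : Type)[X] := X ^ 2 + C (A : M) * X + C (B : M) with hp
  have hpd : p.natDegree = 2 := by rw [hp]; compute_degree!
  have hpm : p.Monic := by rw [hp]; monicity!
  have hirr : Irreducible p := by
    rw [Polynomial.Monic.irreducible_iff_roots_eq_zero_of_degree_le_three hpm (by omega) (by omega)]
    rw [Multiset.eq_zero_iff_forall_notMem]
    intro x hx
    rw [mem_roots hpm.ne_zero, IsRoot.def] at hx
    apply hAB x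
    rw [← hx, hp]
    simp
  obtain ⟨β, hβ⟩ := IsAlgClosed.exists_aeval_eq_zero (AlgebraicClosure K) p
    (by rw [Polynomial.degree_eq_natDegree hpm.ne_zero, hpd]; norm_num)
  have hminp : minpoly M β = p := (minpoly.eq_of_irreducible_of_monic hirr hβ hpm).symm
  have hintM : IsIntegral M β := ⟨p, hpm, by rwa [aeval_def] at hβ⟩
  set L : IntermediateField M (AlgebraicClosure K) := IntermediateField.adjoin M {β} with hL
  have hfd : FiniteDimensional M L := IntermediateField.adjoin.finiteDimensional hintM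
  have hfr : Module.finrank M L = 2 := by
    rw [IntermediateField.adjoin.finrank hintM, hminp, hpd]
  have hfdK : FiniteDimensional ℚ L := by
    have : FiniteDimensional ℚ M := inferInstance
    exact Module.Finite.trans M L
  have : CharZero L := inferInstance
  have hnf : NumberField L := ⟨⟩
  set b : L := IntermediateField.AdjoinSimple.gen M β with hb
  have hbc : (b : AlgebraicClosure K) = β := IntermediateField.AdjoinSimple.coe_gen M β
  have hroot : b ^ 2 + algebraMap M L (A : M) * b + algebraMap M L (B : M) = 0 := by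
    apply Subtype.ext
    have : aeval β p = 0 := hβ
    rw [hp] at this
    simp only [map_add, map_mul, map_pow, aeval_X, aeval_C] at this
    push_cast
    rw [hbc]
    exact this
  have hintO : IsIntegral (𝓞 M) b := by
    refine ⟨X ^ 2 + C A * X + C B, by monicity!, ?_⟩
    simp only [eval₂_add, eval₂_mul, eval₂_pow, eval₂_X, eval₂_C]
    exact hroot
  have htow : IsScalarTower ℤ (𝓞 M) L := IsScalarTower.of_algebraMap_eq (fun n => by simp)
  have hint : IsIntegral ℤ b := isIntegral_trans b hintO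
  obtain ⟨θ, hθ⟩ : ∃ θ : 𝓞 L, algebraMap (𝓞 L) L θ = b := ⟨⟨b, hint⟩, rfl⟩
  refine ⟨L, hnf, θ, hfr, ?_, ?_⟩
  · apply RingOfIntegers.coe_injective
    rw [map_add, map_add, map_mul, map_pow, hθ, map_zero]
    exact hroot
  · intro x hx
    have hx' : algebraMap M L x = b := hx.trans hθ
    apply hAB x
    have h1 : algebraMap M L (x ^ 2 + (A : M) * x + (B : M)) = 0 := by
      rw [map_add, map_add, map_mul, map_pow, hx']
      exact hroot
    exact (map_eq_zero_iff _ (algebraMap M L).injective).1 h1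

/-- all products of `|H|` maximal quadratic algebras occur -/
theorem exists_type (fam : S_FAM) (spl : S_SPL) (idl : S_IDL) (apr : S_APR) (iso : S_ISO)
    (H : Type) [Group H] [Fintype H] :
    ∃ (K₀ : Type) (_ : Field K₀) (_ : NumberField K₀), ∀ (K : Type) [Field K] [NumberField K]
      [Algebra K₀ K] (𝔪 : Ideal (𝓞 K)), 𝔪 ≠ ⊥ → ∀ a b : H → 𝓞 K,
      (∀ h, ∀ P : Ideal (𝓞 K), P.IsPrime → 𝔪 ≤ P → MaxAt P (a h) (b h)) →
      ∃ M ∈ Gal K (AlgebraicClosure K) H, ∃ L : IntermediateField K (AlgebraicClosure K),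
        M ≤ L ∧ Module.finrank K L = 2 * Module.finrank K M ∧
        Ty K L 𝔪 (∀ h, QA K 𝔪 (a h) (b h)) := by
  obtain ⟨K₀, i1, i2, hsp⟩ := exists_split fam spl H
  refine ⟨K₀, i1, i2, ?_⟩
  intro K _ _ _ 𝔪 h𝔪 a b hab
  obtain ⟨M, hM, hfix⟩ := hsp K 𝔪 h𝔪
  refine ⟨M, hM, ?_⟩
  obtain ⟨hM1, hM2, hM3⟩ := hM
  have : NumberField M := nf_of_fd M
  have hcard : Fintype.card H = Module.finrank K M := by
    obtain ⟨e⟩ := hM3
    rw [← IsGalois.card_aut_eq_finrank K M, ← Nat.card_eq_fintype_card]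
    exact (Nat.card_congr e.toEquiv).symm
  obtain ⟨J, hJ⟩ := idl K M 𝔪 h𝔪 hfix H hcard
  have hinj : Function.Injective (algebraMap (𝓞 K) (𝓞 M)) :=
    FaithfulSMul.algebraMap_injective (𝓞 K) (𝓞 M)
  have h0 : 𝔪.map (algebraMap (𝓞 K) (𝓞 M)) ≠ ⊥ := by
    rwa [Ne, Ideal.map_eq_bot_iff_of_injective hinj]
  have hJ0 : ∀ i, J i ≠ ⊥ := by
    intro i hi
    apply h0
    rw [hJ.prd]
    exact Finset.prod_eq_zero (Finset.mem_univ i) hi
  obtain ⟨A, B, hAB, hirr⟩ := apr M H J hJ0 hJ.cop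
    (fun h => algebraMap (𝓞 K) (𝓞 M) (a h)) (fun h => algebraMap (𝓞 K) (𝓞 M) (b h))
  obtain ⟨L, hnf, θ, hfr, hroot, hθ⟩ := exists_quad M A B hirr
  refine ⟨L.restrictScalars K, ?_, ?_, ?_⟩
  · intro x hx
    exact L.algebraMap_mem (⟨x, hx⟩ : M)
  · have : Module.finrank K L = Module.finrank K M * Module.finrank M L :=
      (Module.finrank_mul_finrank K M L).symm
    rw [hfr, mul_comm] at this
    exact this
  · exact iso K M L 𝔪 H J a b A B θ h𝔪 hJ hAB hab hfr hroot hθ

end Pool.Agent.H419.MK
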