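import Pool.Agent.H419.MK.Stm
import Pool.Graph.R_seed8.H880R2.Hilb.E1
import Pool.Graph.R_seed8.H793R2.HilbFin

/-!
# Hilbert irreducibility over a number field with an integral parameter (helper118)

The proof of the passage to a finite extension is that of the module Pool.Graph.R_seed8.H793R2.HilbFin.
-/

set_option autoImplicit false

namespace Pool.Agent.H419.MK.HITZ

open Polynomial Module
open scoped IntermediateField nonZeroDivisors
open Pool.Agent.H793R2.HilbFin (irreducible_of_elem exists_generator finite_poly finrank_poly avoid)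

attribute [local instance] Polynomial.algebra
attribute [local instance] FractionRing.liftAlgebra

/-- Hilbertian with integral parameters -/
def HilbZ (K : Type) [Field K] : Prop :=
  ∀ (f : K[X][X]), f.Monic → Irreducible f → ∀ g : K[X], g ≠ 0 →
    ∃ a : ℤ, g.eval (a : K) ≠ 0 ∧ Irreducible (f.map (evalRingHom (a : K)))

theorem hilb_rat : HilbZ ℚ := by
  intro f hf hirr g hg
  obtain ⟨B, hB⟩ : ∃ B : ℤ, ∀ a : ℤ, B < a → g.eval (a : ℚ) ≠ 0 := by
    have hfin : {a : ℤ | g.eval (a : ℚ) = 0}.Finite := by
      have h1 : (g.rootSet ℚ).Finite := g.rootSet_finite ℚ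
      apply Set.Finite.of_injOn (f := fun a : ℤ => (a : ℚ)) (t := g.rootSet ℚ)
      · intro a ha
        rw [mem_rootSet]
        exact ⟨hg, by simpa using ha⟩
      · exact fun a _ b _ h => Int.cast_injective h
      · exact h1
    obtain ⟨B, hB⟩ := hfin.bddAbove
    exact ⟨B, fun a ha h0 => absurd (hB h0) (not_le.2 ha)⟩
  obtain ⟨a, ha, hirr'⟩ := Pool.Agent.H880R2.Hilb.hilb_core f hf hirr B
  exact ⟨a, hB a ha, hirr'⟩

theorem finite_ext (K K' : Type) [Field K] [CharZero K] [Field K'] [Algebra K K']
    [FiniteDimensional K K'] (hK : HilbZ K) : HilbZ K' := by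
  intro f hfm hfi g hg
  have hprime : Prime f := hfi.prime
  have hdom : IsDomain (AdjoinRoot f) := AdjoinRoot.isDomain_of_prime hprime
  have hfdeg : f.natDegree ≠ 0 := by
    intro h0
    apply hfi.not_isUnit
    rw [hfm.natDegree_eq_zero.mp h0]
    exact isUnit_one
  have hfdeg' : f.degree ≠ 0 := by
    intro h0
    exact hfdeg (natDegree_eq_of_degree_eq_some h0)
  have hfin1 : Module.Finite K[X] K'[X] := finite_poly K K'
  have hfin2 : Module.Finite K'[X] (AdjoinRoot f) := hfm.finite_adjoinRoot
  have hfin : Module.Finite K[X] (AdjoinRoot f) := Module.Finite.trans K'[X] (AdjoinRoot f)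
  have hinj2 : Function.Injective (algebraMap K'[X] (AdjoinRoot f)) :=
    AdjoinRoot.of.injective_of_degree_ne_zero hfdeg'
  have hff2 : FaithfulSMul K'[X] (AdjoinRoot f) := (faithfulSMul_iff_algebraMap_injective _ _).mpr hinj2
  have hinj : Function.Injective (algebraMap K[X] (AdjoinRoot f)) := by
    rw [IsScalarTower.algebraMap_eq K[X] K'[X] (AdjoinRoot f)]
    exact hinj2.comp (FaithfulSMul.algebraMap_injective K[X] K'[X])
  have hff : FaithfulSMul K[X] (AdjoinRoot f) := (faithfulSMul_iff_algebraMap_injective _ _).mpr hinj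
  have hcz : CharZero K[X] := inferInstance
  -- the generator
  obtain ⟨m, hm⟩ := exists_generator K[X] (AdjoinRoot f)
  have hmi : IsIntegral K[X] m := Algebra.IsIntegral.isIntegral m
  set h : K[X][X] := minpoly K[X] m with hh
  have hmin := minpoly.isIntegrallyClosed_eq_field_fractions (FractionRing K[X])
    (FractionRing (AdjoinRoot f)) hmi
  have hfdF : FiniteDimensional (FractionRing K[X]) (FractionRing (AdjoinRoot f)) := inferInstance
  have hhm : h.Monic := minpoly.monic hmi
  have hhi : Irreducible h := minpoly.irreducible hmi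
  have hhs : (h.map (algebraMap K[X] (FractionRing K[X]))).Separable := by
    rw [← hmin]
    exact (minpoly.irreducible (Algebra.IsIntegral.isIntegral _)).separable
  have hdeg : h.natDegree = finrank K K' * f.natDegree := by
    have h1 := (Field.primitive_element_iff_minpoly_natDegree_eq (FractionRing K[X])
      (algebraMap (AdjoinRoot f) (FractionRing (AdjoinRoot f)) m)).mp hm
    rw [hmin, hhm.natDegree_map, IsFractionRing.finrank_eq K[X] (FractionRing K[X]) (AdjoinRoot f)
      (FractionRing (AdjoinRoot f)), ← finrank_mul_finrank' (R := K[X]) (S := K'[X]) (AdjoinRoot f),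
      finrank_poly] at h1
    rw [h1, (AdjoinRoot.powerBasis' hfm).finrank, AdjoinRoot.powerBasis'_dim]
  obtain ⟨g', hg', hgg'⟩ := avoid (K := K) g hg
  obtain ⟨b, ha1, ha2⟩ := hK h hhm hhi g' hg'
  set a : K := (b : K) with hab
  have hb : (b : K') = algebraMap K K' a := by rw [hab, map_intCast]
  refine ⟨b, by rw [hb]; exact hgg' a ha1, ?_⟩
  rw [hb]
  -- specialisation
  set a' : K' := algebraMap K K' a with ha'
  set p : K'[X] := f.map (evalRingHom a') with hp
  have hpm : p.Monic := hfm.map _
  have hpd : p.natDegree = f.natDegree := hfm.natDegree_map _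
  have hroot : f.eval₂ ((AdjoinRoot.of p).comp (evalRingHom a')) (AdjoinRoot.root p) = 0 := by
    rw [← eval₂_map]
    exact AdjoinRoot.eval₂_root p
  let ψ : AdjoinRoot f →+* AdjoinRoot p :=
    AdjoinRoot.lift ((AdjoinRoot.of p).comp (evalRingHom a')) (AdjoinRoot.root p) hroot
  have hψ : ψ.comp (algebraMap K[X] (AdjoinRoot f)) =
      (algebraMap K (AdjoinRoot p)).comp (evalRingHom a) := by
    have e1 : ψ.comp (algebraMap K'[X] (AdjoinRoot f)) =
        (AdjoinRoot.of p).comp (evalRingHom a') := by
      ext x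
      · exact AdjoinRoot.lift_of hroot
      · exact AdjoinRoot.lift_of hroot
    rw [IsScalarTower.algebraMap_eq K[X] K'[X] (AdjoinRoot f), ← RingHom.comp_assoc, e1,
      RingHom.comp_assoc, IsScalarTower.algebraMap_eq K K' (AdjoinRoot p), RingHom.comp_assoc]
    congr 1
    ext x
    · simp
    · simp [ha']
  have hγ : aeval (ψ m) (h.map (evalRingHom a)) = 0 := by
    rw [aeval_def, eval₂_map, ← hψ, ← hom_eval₂]
    have h2 : eval₂ (algebraMap K[X] (AdjoinRoot f)) m h = 0 := minpoly.aeval K[X] m
    rw [h2, map_zero]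
  refine irreducible_of_elem p hpm (by rw [hpd]; exact hfdeg) (h.map (evalRingHom a))
    (hhm.map _) ha2 (ψ m) hγ ?_
  rw [hhm.natDegree_map, hpd, hdeg]

theorem t_HITZ : S_HITZ := by
  intro K _ _ f hf hirr g hg
  exact finite_ext ℚ K hilb_rat f hf hirr g hg

end Pool.Agent.H419.MK.HITZ
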