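import Pool.Agent.H419.MK.Stm

/-! # Task MK-IDL (helper79) -/

set_option autoImplicit false
set_option linter.unusedSectionVars false
set_option linter.unusedVariables false

open NumberField Polynomial

namespace Pool.Agent.H419.MK.IDL

section dedekind

variable {A B : Type} [CommRing A] [IsDedekindDomain A] [CommRing B] [IsDedekindDomain B]
  [Algebra A B]

theorem pow_notMem {P : Ideal B} [hPp : P.IsPrime] (hP : P ≠ ⊥) {x : B} (h1 : x ∈ P)
    (h2 : x ∉ P ^ 2) (N : ℕ) : x ^ N ∉ P ^ (N + 1) := by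
  obtain ⟨I, hI⟩ := Ideal.dvd_span_singleton.2 h1
  have hIP : ¬ P ∣ I := by
    rintro ⟨J, rfl⟩
    apply h2
    rw [← Ideal.dvd_span_singleton, hI]
    exact ⟨J, by ring⟩
  intro hmem
  rw [← Ideal.dvd_span_singleton, ← Ideal.span_singleton_pow, hI, mul_pow, pow_succ,
    mul_dvd_mul_iff_left (pow_ne_zero _ hP)] at hmem
  exact hIP ((Ideal.prime_of_isPrime hP hPp).dvd_of_dvd_pow hmem)

/-- surjectivity modulo powers -/
theorem sur_pow {P : Ideal B} [hPp : P.IsPrime] (hP : P ≠ ⊥) {π : A}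
    (h1 : algebraMap A B π ∈ P) (h2 : algebraMap A B π ∉ P ^ 2)
    (hs : ∀ x : B, ∃ a : A, x - algebraMap A B a ∈ P) (N : ℕ) (x : B) :
    ∃ a : A, x - algebraMap A B a ∈ P ^ N := by
  induction N with
  | zero => exact ⟨0, by rw [pow_zero, Ideal.one_eq_top]; exact Submodule.mem_top⟩
  | succ N ih =>
    obtain ⟨a, ha⟩ := ih
    obtain ⟨d, e, he, hde⟩ := Ideal.exists_mul_add_mem_pow_succ hP _ _
      (Ideal.pow_mem_pow h1 N) (pow_notMem hP h1 h2 N) ha
    obtain ⟨b, hb⟩ := hs d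
    refine ⟨a + π ^ N * b, ?_⟩
    have h3 : x - algebraMap A B (a + π ^ N * b) =
        (algebraMap A B π) ^ N * (d - algebraMap A B b) + e := by
      rw [map_add, map_mul, map_pow]
      linear_combination -hde
    rw [h3]
    refine Ideal.add_mem _ ?_ he
    rw [pow_succ]
    exact Ideal.mul_mem_mul (Ideal.pow_mem_pow h1 N) hb

theorem inj_pow {p : Ideal A} [p.IsPrime] (hp : p ≠ ⊥) {P : Ideal B} [hPp : P.IsPrime]
    (hP : P ≠ ⊥) (hcm : P.comap (algebraMap A B) = p) {π : A} (h0 : π ∈ p)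
    (h2 : algebraMap A B π ∉ P ^ 2) (N : ℕ) (a : A) (ha : algebraMap A B a ∈ P ^ N) :
    a ∈ p ^ N := by
  have h1 : algebraMap A B π ∈ P := by
    rw [← hcm] at h0
    exact h0
  induction N with
  | zero => rw [pow_zero, Ideal.one_eq_top]; exact Submodule.mem_top
  | succ N ih =>
    have h3 := ih (Ideal.pow_le_pow_right (Nat.le_succ N) ha)
    have hle : ∀ k : ℕ, ∀ c ∈ p ^ k, algebraMap A B c ∈ P ^ k := by
      intro k c hc
      have h4 : (p ^ k).map (algebraMap A B) ≤ P ^ k := by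
        rw [Ideal.map_pow]
        exact Ideal.pow_right_mono (Ideal.map_le_iff_le_comap.2 hcm.ge) k
      exact h4 (Ideal.mem_map_of_mem _ hc)
    have hπ' : π ^ N ∉ p ^ (N + 1) := by
      intro h4
      have h5 := hle _ _ h4
      rw [map_pow] at h5
      exact pow_notMem hP h1 h2 N h5
    obtain ⟨d, e, he, hde⟩ := Ideal.exists_mul_add_mem_pow_succ hp _ _
      (Ideal.pow_mem_pow h0 N) hπ' h3
    have h6 : (algebraMap A B π) ^ N * algebraMap A B d ∈ P ^ (N + 1) := by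
      have h7 : (algebraMap A B π) ^ N * algebraMap A B d =
          algebraMap A B a - algebraMap A B e := by
        rw [← hde, map_add, map_mul, map_pow]
        ring
      rw [h7]
      exact Ideal.sub_mem _ ha (hle _ _ he)
    have hd := Ideal.mem_prime_of_mul_mem_pow hP (pow_notMem hP h1 h2 N) h6
    have hd' : d ∈ p := by
      rw [← hcm]
      exact hd
    rw [← hde]
    refine Ideal.add_mem _ ?_ he
    rw [pow_succ]
    exact Ideal.mul_mem_mul (Ideal.pow_mem_pow h0 N) hd'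

end dedekind

section nf

variable {K M : Type} [Field K] [NumberField K] [Field M] [NumberField M] [Algebra K M]

theorem fac_pow {p : Ideal (𝓞 K)} [hpp : p.IsPrime] (hp : p ≠ ⊥) {ι : Type} [Fintype ι]
    {P : ι → Ideal (𝓞 M)} (hPp : ∀ i, (P i).IsPrime) (hinj : Function.Injective P)
    (hcm : ∀ i, (P i).comap (algebraMap (𝓞 K) (𝓞 M)) = p)
    (hprd : p.map (algebraMap (𝓞 K) (𝓞 M)) = ∏ i, P i)
    (hs : ∀ i, ∀ x : 𝓞 M, ∃ a : 𝓞 K, x - algebraMap (𝓞 K) (𝓞 M) a ∈ P i) {k : ℕ} (hk : k ≠ 0) :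
    Fac K M (p ^ k) ι (fun i => P i ^ k) := by
  classical
  have hP : ∀ i, P i ≠ ⊥ := by
    intro i h
    apply hp
    rw [← hcm i, h]
    exact Ideal.comap_bot_of_injective _ (FaithfulSMul.algebraMap_injective _ _)
  have hPm : ∀ i, (P i).IsMaximal := fun i => (hPp i).isMaximal (hP i)
  have hcop : ∀ i j, i ≠ j → IsCoprime (P i) (P j) := by
    intro i j hij
    rw [Ideal.isCoprime_iff_sup_eq]
    exact (hPm i).coprime_of_ne (hPm j) fun h => hij (hinj h)
  have hπ : ∀ i, ∃ π ∈ p, algebraMap (𝓞 K) (𝓞 M) π ∉ P i ^ 2 := by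
    intro i
    by_contra hcon
    push Not at hcon
    have h1 : p.map (algebraMap (𝓞 K) (𝓞 M)) ≤ P i ^ 2 := Ideal.map_le_iff_le_comap.2 hcon
    rw [hprd, ← Ideal.dvd_iff_le, ← Finset.mul_prod_erase _ _ (Finset.mem_univ i), pow_two,
      mul_dvd_mul_iff_left (hP i)] at h1
    have h2 : IsCoprime (P i) (∏ j ∈ Finset.univ.erase i, P j) :=
      IsCoprime.prod_right fun j hj => hcop i j (Finset.ne_of_mem_erase hj).symm
    have h3 := h2.isUnit_of_dvd' dvd_rfl h1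
    rw [Ideal.isUnit_iff] at h3
    exact (hPp i).ne_top h3
  refine ⟨fun i j hij => (hcop i j hij).pow, ?_, ?_, ?_, ?_⟩
  · rw [Ideal.map_pow, hprd, Finset.prod_pow]
  · intro i x
    obtain ⟨π, h1, h2⟩ := hπ i
    have := hPp i
    have h3 : algebraMap (𝓞 K) (𝓞 M) π ∈ P i := by
      rw [← hcm i] at h1
      exact h1
    rw [← pow_mul]
    exact sur_pow (hP i) h3 h2 (hs i) _ x
  · intro i a ha
    obtain ⟨π, h1, h2⟩ := hπ i
    have := hPp i
    exact inj_pow hp (hP i) (hcm i) h1 h2 k a ha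
  · rintro Q hQ ⟨i, hi⟩ a ha
    have h1 : P i ≤ Q := hQ.le_of_pow_le hi
    have h2 : P i = Q := (hPm i).eq_of_le hQ.ne_top h1
    subst h2
    obtain ⟨π, h1, h2⟩ := hπ i
    rw [hcm i]
    exact inj_pow hp (hP i) (hcm i) h1 h2 2 a ha

theorem fac_top {ι : Type} [Fintype ι] : Fac K M ⊤ ι (fun _ => ⊤) := by
  refine ⟨fun i j _ => ?_, ?_, ?_, ?_, ?_⟩
  · rw [← Ideal.one_eq_top]
    exact isCoprime_one_left
  · rw [Ideal.map_top, ← Ideal.one_eq_top, Finset.prod_const_one]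
  · intro i x
    refine ⟨0, ?_⟩
    rw [← Ideal.one_eq_top, one_pow, Ideal.one_eq_top]
    exact Submodule.mem_top
  · intro i a _
    exact Submodule.mem_top
  · rintro P hP ⟨i, hi⟩
    exact absurd (top_le_iff.1 hi) hP.ne_top

theorem fac_mul {a b : Ideal (𝓞 K)} (hab : IsCoprime a b) {ι : Type} [Fintype ι]
    {I J : ι → Ideal (𝓞 M)} (hI : Fac K M a ι I) (hJ : Fac K M b ι J) :
    Fac K M (a * b) ι (fun i => I i * J i) := by
  classical
  have hle : ∀ i, a.map (algebraMap (𝓞 K) (𝓞 M)) ≤ I i := by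
    intro i
    rw [hI.prd, ← Ideal.dvd_iff_le]
    exact Finset.dvd_prod_of_mem _ (Finset.mem_univ i)
  have hle' : ∀ i, b.map (algebraMap (𝓞 K) (𝓞 M)) ≤ J i := by
    intro i
    rw [hJ.prd, ← Ideal.dvd_iff_le]
    exact Finset.dvd_prod_of_mem _ (Finset.mem_univ i)
  have hab' : IsCoprime (a.map (algebraMap (𝓞 K) (𝓞 M))) (b.map (algebraMap (𝓞 K) (𝓞 M))) := by
    rw [Ideal.isCoprime_iff_sup_eq] at hab ⊢
    rw [← Ideal.map_sup, hab, Ideal.map_top]
  have hIJ : ∀ i j, IsCoprime (I i) (J j) := by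
    intro i j
    rw [Ideal.isCoprime_iff_sup_eq] at hab' ⊢
    exact top_le_iff.1 (hab'.ge.trans (sup_le_sup (hle i) (hle' j)))
  refine ⟨fun i j hij => ?_, ?_, ?_, ?_, ?_⟩
  · refine IsCoprime.mul_left (IsCoprime.mul_right (hI.cop i j hij) (hIJ i j))
      (IsCoprime.mul_right (hIJ j i).symm (hJ.cop i j hij))
  · rw [Ideal.map_mul, hI.prd, hJ.prd, Finset.prod_mul_distrib]
  · intro i x
    obtain ⟨u, hu⟩ := hI.sur i x
    obtain ⟨v, hv⟩ := hJ.sur i x
    have h1 : IsCoprime (a ^ 2) (b ^ 2) := hab.pow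
    rw [Ideal.isCoprime_iff_exists] at h1
    obtain ⟨s, hs, t, ht, hst⟩ := h1
    refine ⟨u * t + v * s, ?_⟩
    have h2 : IsCoprime (I i ^ 2) (J i ^ 2) := (hIJ i i).pow
    rw [mul_pow, Ideal.mul_eq_inf_of_isCoprime h2]
    have hs' : algebraMap (𝓞 K) (𝓞 M) s ∈ I i ^ 2 := by
      have h3 : (a ^ 2).map (algebraMap (𝓞 K) (𝓞 M)) ≤ I i ^ 2 := by
        rw [Ideal.map_pow]
        exact Ideal.pow_right_mono (hle i) 2
      exact h3 (Ideal.mem_map_of_mem _ hs)
    have ht' : algebraMap (𝓞 K) (𝓞 M) t ∈ J i ^ 2 := by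
      have h3 : (b ^ 2).map (algebraMap (𝓞 K) (𝓞 M)) ≤ J i ^ 2 := by
        rw [Ideal.map_pow]
        exact Ideal.pow_right_mono (hle' i) 2
      exact h3 (Ideal.mem_map_of_mem _ ht)
    have hst' : algebraMap (𝓞 K) (𝓞 M) s + algebraMap (𝓞 K) (𝓞 M) t = 1 := by
      rw [← map_add, hst, map_one]
    constructor
    · have h4 : x - algebraMap (𝓞 K) (𝓞 M) (u * t + v * s) =
          (x - algebraMap (𝓞 K) (𝓞 M) u) +
          (algebraMap (𝓞 K) (𝓞 M) u - algebraMap (𝓞 K) (𝓞 M) v) *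
            algebraMap (𝓞 K) (𝓞 M) s := by
        rw [map_add, map_mul, map_mul]
        linear_combination -(algebraMap (𝓞 K) (𝓞 M) u) * hst'
      rw [h4]
      exact Ideal.add_mem _ hu (Ideal.mul_mem_left _ _ hs')
    · have h4 : x - algebraMap (𝓞 K) (𝓞 M) (u * t + v * s) =
          (x - algebraMap (𝓞 K) (𝓞 M) v) +
          (algebraMap (𝓞 K) (𝓞 M) v - algebraMap (𝓞 K) (𝓞 M) u) *
            algebraMap (𝓞 K) (𝓞 M) t := by
        rw [map_add, map_mul, map_mul]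
        linear_combination -(algebraMap (𝓞 K) (𝓞 M) v) * hst'
      rw [h4]
      exact Ideal.add_mem _ hv (Ideal.mul_mem_left _ _ ht')
  · intro i c hc
    have hc' : algebraMap (𝓞 K) (𝓞 M) c ∈ I i * J i := hc
    rw [Ideal.mul_eq_inf_of_isCoprime hab]
    have h1 : algebraMap (𝓞 K) (𝓞 M) c ∈ I i := Ideal.mul_le_left (I := I i) (J := J i) hc'
    have h2 : algebraMap (𝓞 K) (𝓞 M) c ∈ J i := Ideal.mul_le_right (I := I i) (J := J i) hc'
    exact ⟨hI.inj i c h1, hJ.inj i c h2⟩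
  · rintro P hP ⟨i, hi⟩ c hc
    rcases hP.mul_le.1 hi with h | h
    · exact hI.unr P hP ⟨i, h⟩ c hc
    · exact hJ.unr P hP ⟨i, h⟩ c hc

open scoped Pointwise in
theorem exists_P [IsGalois K M] {p : Ideal (𝓞 K)} [hpp : p.IsPrime] (hp : p ≠ ⊥)
    (h : ∀ P : Ideal (𝓞 M), P.IsPrime → P ≠ ⊥ → p.map (algebraMap (𝓞 K) (𝓞 M)) ≤ P →
      ∀ σ : M ≃ₐ[K] M, Fixes σ P → σ = 1) (ι : Type) [Fintype ι]
    (hι : Fintype.card ι = Module.finrank K M) :
    ∃ P : ι → Ideal (𝓞 M), (∀ i, (P i).IsPrime) ∧ Function.Injective P ∧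
      (∀ i, (P i).comap (algebraMap (𝓞 K) (𝓞 M)) = p) ∧
      p.map (algebraMap (𝓞 K) (𝓞 M)) = ∏ i, P i ∧
      ∀ i, ∀ x : 𝓞 M, ∃ a : 𝓞 K, x - algebraMap (𝓞 K) (𝓞 M) a ∈ P i := by
  classical
  have hpm : p.IsMaximal := hpp.isMaximal hp
  obtain ⟨Q⟩ : Nonempty (p.primesOver (𝓞 M)) := inferInstance
  have hfin : Finite (p.primesOver (𝓞 M)) := inferInstance
  have hQp : Q.1.IsPrime := Q.2.1
  have hQo : Q.1.LiesOver p := Q.2.2
  have hne : ∀ R : p.primesOver (𝓞 M), R.1 ≠ ⊥ := by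
    intro R hR
    have hRo : R.1.LiesOver p := R.2.2
    apply hp
    rw [hRo.over, hR]
    exact Ideal.comap_bot_of_injective _ (FaithfulSMul.algebraMap_injective _ _)
  have hfree : ∀ σ : M ≃ₐ[K] M, σ • Q.1 = Q.1 → σ = 1 := by
    intro σ hσ
    refine h Q.1 hQp (hne Q) (Ideal.map_le_iff_le_comap.2 hQo.over.le) σ ?_
    intro x hx
    have h1 : σ • x ∈ σ • Q.1 := Ideal.smul_mem_pointwise_smul σ x Q.1 hx
    rw [hσ] at h1
    exact h1
  let f : (M ≃ₐ[K] M) → p.primesOver (𝓞 M) := fun σ => Ideal.primesOver.mk p (σ • Q.1)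
  have hf : Function.Bijective f := by
    constructor
    · intro σ τ hστ
      have h1 : σ • Q.1 = τ • Q.1 := congrArg Subtype.val hστ
      have h2 : (τ⁻¹ * σ) • Q.1 = Q.1 := by rw [mul_smul, h1, inv_smul_smul]
      have h3 := hfree _ h2
      exact (inv_mul_eq_one.1 h3).symm
    · intro R
      have hRp : R.1.IsPrime := R.2.1
      have hRo : R.1.LiesOver p := R.2.2
      obtain ⟨σ, hσ⟩ := Ideal.exists_smul_eq_of_isGaloisGroup p Q.1 R.1 (M ≃ₐ[K] M)
      exact ⟨σ, Subtype.ext hσ⟩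
  have hcard : Nat.card (M ≃ₐ[K] M) = Nat.card (p.primesOver (𝓞 M)) :=
    Nat.card_congr (Equiv.ofBijective f hf)
  have hsum := Ideal.sum_ramification_inertia_eq_card (S := 𝓞 M) p (G := M ≃ₐ[K] M)
  rw [hcard, Nat.card_eq_fintype_card, ← Finset.card_univ, Finset.card_eq_sum_ones] at hsum
  have hpos : ∀ R : p.primesOver (𝓞 M), 1 ≤ R.1.ramificationIdx (𝓞 K) * R.1.inertiaDeg (𝓞 K) := by
    intro R
    have hRp : R.1.IsPrime := R.2.1
    exact Nat.mul_pos (R.1.ramificationIdx_pos _) (R.1.inertiaDeg_pos _)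
  have hone : ∀ R : p.primesOver (𝓞 M),
      R.1.ramificationIdx (𝓞 K) = 1 ∧ R.1.inertiaDeg (𝓞 K) = 1 := by
    intro R
    have h1 := (Finset.sum_eq_sum_iff_of_le fun R _ => hpos R).1 hsum.symm R (Finset.mem_univ _)
    exact ⟨Nat.eq_one_of_mul_eq_one_right h1.symm, Nat.eq_one_of_mul_eq_one_left h1.symm⟩
  have hcard2 : Fintype.card ι = Fintype.card (p.primesOver (𝓞 M)) := by
    rw [← Nat.card_eq_fintype_card (α := p.primesOver (𝓞 M)), ← hcard, hι,
      IsGalois.card_aut_eq_finrank]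
  let e : ι ≃ p.primesOver (𝓞 M) := Fintype.equivOfCardEq hcard2
  refine ⟨fun i => (e i).1, fun i => (e i).2.1, fun i j hij => e.injective (Subtype.ext hij),
    fun i => ?_, ?_, ?_⟩
  · have h1 := (e i).2.2.over
    exact h1.symm
  · rw [Ideal.map_algebraMap_eq_finsetProd_pow hp, ← Finset.prod_set_coe]
    have h1 : ∀ R : p.primesOver (𝓞 M), R.1 ^ R.1.ramificationIdx (𝓞 K) = R.1 := by
      intro R
      rw [(hone R).1, pow_one]
    have h2 : ∏ i, (e i).1 ^ (e i).1.ramificationIdx (𝓞 K) =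
        ∏ R : p.primesOver (𝓞 M), R.1 ^ R.1.ramificationIdx (𝓞 K) :=
      Equiv.prod_comp e fun R : p.primesOver (𝓞 M) => R.1 ^ R.1.ramificationIdx (𝓞 K)
    rw [← h2]
    exact Finset.prod_congr rfl fun i _ => h1 (e i)
  · intro i x
    have hRp : (e i).1.IsPrime := (e i).2.1
    have hRo : (e i).1.LiesOver p := (e i).2.2
    have hRm : (e i).1.IsMaximal := hRp.isMaximal (hne _)
    have h1 := (hone (e i)).2
    rw [Ideal.inertiaDeg_eq_of_isMaximal p (e i).1] at h1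
    let _ : Field (𝓞 K ⧸ p) := Ideal.Quotient.field p
    let _ : Field (𝓞 M ⧸ (e i).1) := Ideal.Quotient.field (e i).1
    have h2 := (finrank_eq_one_iff_of_nonzero' (K := 𝓞 K ⧸ p) (V := 𝓞 M ⧸ (e i).1) 1
      one_ne_zero).1 h1 (Ideal.Quotient.mk _ x)
    obtain ⟨c, hc⟩ := h2
    obtain ⟨a, rfl⟩ := Ideal.Quotient.mk_surjective c
    refine ⟨a, ?_⟩
    rw [Algebra.smul_def, mul_one] at hc
    rw [← Ideal.Quotient.eq, ← hc]
    rfl

end nf

/-- **IDL.** -/
theorem t_IDL : S_IDL := by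
  intro K M _ _ _ _ _ _ m
  induction m using UniqueFactorizationMonoid.induction_on_coprime with
  | h0 => exact fun h => absurd rfl h
  | @h1 x hx =>
    intro _ _ ι _ _
    rw [Ideal.isUnit_iff] at hx
    subst hx
    exact ⟨_, fac_top⟩
  | @hpr p i hp =>
    intro _ h ι _ hι
    by_cases hi : i = 0
    · subst hi
      rw [pow_zero, Ideal.one_eq_top]
      exact ⟨_, fac_top⟩
    · have hpp : p.IsPrime := Ideal.isPrime_of_prime hp
      obtain ⟨P, h1, h2, h3, h4, h5⟩ := exists_P (K := K) (M := M) (p := p) hp.ne_zero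
        (fun P hP1 hP2 hP3 => h P hP1 hP2 (by
          rw [Ideal.map_pow]
          exact (Ideal.pow_le_self hi).trans hP3)) ι hι
      exact ⟨_, fac_pow hp.ne_zero h1 h2 h3 h4 h5 hi⟩
  | @hcp x y hxy hx hy =>
    intro hne h ι _ hι
    have hx0 : x ≠ ⊥ := fun h0 => hne (by rw [h0, Ideal.bot_mul])
    have hy0 : y ≠ ⊥ := fun h0 => hne (by rw [h0, Ideal.mul_bot])
    obtain ⟨I, hI⟩ := hx hx0 (fun P hP1 hP2 hP3 => h P hP1 hP2 (by
      rw [Ideal.map_mul]
      exact Ideal.mul_le_left.trans hP3)) ι hι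
    obtain ⟨J, hJ⟩ := hy hy0 (fun P hP1 hP2 hP3 => h P hP1 hP2 (by
      rw [Ideal.map_mul]
      exact Ideal.mul_le_right.trans hP3)) ι hι
    have hco : IsCoprime x y := by
      rw [Ideal.isCoprime_iff_sup_eq, ← Ideal.isUnit_iff]
      exact hxy (Ideal.dvd_iff_le.2 le_sup_left) (Ideal.dvd_iff_le.2 le_sup_right)
    exact ⟨_, fac_mul hco hI hJ⟩

end Pool.Agent.H419.MK.IDL
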