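import Pool.Agent.H419.MK.Stm

/-! # ISO: the algebra `𝓞_L / 𝔪 𝓞_L` of the quadratic extension -/

set_option autoImplicit false

open NumberField Polynomial

namespace Pool.Agent.H419.MK.ISO

section alg

variable {R S T : Type} [CommRing R] [CommRing S] [CommRing T] [Algebra R S] [Algebra S T]
  [Algebra R T] [IsScalarTower R S T]

/-- the kernel of the evaluation at `θ` -/
lemma local_iso (m : Ideal R) (J : Ideal S) (a b : R) (A B : S) (θ : T)
    (hmJ : ∀ x ∈ m, algebraMap R S x ∈ J) (hJm : ∀ x : R, algebraMap R S x ∈ J → x ∈ m)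
    (hsur : ∀ x : S, ∃ y : R, x - algebraMap R S y ∈ J)
    (hA : A - algebraMap R S a ∈ J) (hB : B - algebraMap R S b ∈ J)
    (hθ : θ ^ 2 + algebraMap S T A * θ + algebraMap S T B = 0)
    (h1 : ∀ z : T, ∃ u v : S, z - (algebraMap S T u + algebraMap S T v * θ) ∈ J.map (algebraMap S T))
    (h2 : ∀ u v : S, algebraMap S T u + algebraMap S T v * θ ∈ J.map (algebraMap S T) → u ∈ J ∧ v ∈ J) :
    Nonempty ((T ⧸ J.map (algebraMap S T)) ≃ₐ[R]
      (R[X] ⧸ (Ideal.span {X ^ 2 + C a * X + C b} ⊔ m.map C))) := by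
  have htow : ∀ x : R, algebraMap R T x = algebraMap S T (algebraMap R S x) := fun x =>
    IsScalarTower.algebraMap_apply R S T x
  have hmem : ∀ x ∈ J, algebraMap S T x ∈ J.map (algebraMap S T) := fun x hx => Ideal.mem_map_of_mem _ hx
  let φ : R[X] →ₐ[R] (T ⧸ J.map (algebraMap S T)) := aeval (Ideal.Quotient.mk (J.map (algebraMap S T)) θ)
  have hφ : ∀ p : R[X], φ p = Ideal.Quotient.mk (J.map (algebraMap S T)) (aeval θ p) := by
    intro p
    have := Polynomial.aeval_algHom_apply (Ideal.Quotient.mkₐ R (J.map (algebraMap S T))) θ p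
    exact this
  have hker : ∀ p : R[X], φ p = 0 ↔ aeval θ p ∈ J.map (algebraMap S T) := by
    intro p
    rw [hφ, Ideal.Quotient.eq_zero_iff_mem]
  have hφs : Function.Surjective φ := by
    intro z
    obtain ⟨z, rfl⟩ := Ideal.Quotient.mk_surjective z
    obtain ⟨u, v, huv⟩ := h1 z
    obtain ⟨u0, hu0⟩ := hsur u
    obtain ⟨v0, hv0⟩ := hsur v
    refine ⟨C u0 + C v0 * X, ?_⟩
    rw [hφ]
    refine (Ideal.Quotient.eq.2 ?_).symm
    rw [map_add, map_mul, aeval_C, aeval_C, aeval_X, htow, htow]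
    have e : z - (algebraMap S T (algebraMap R S u0) + algebraMap S T (algebraMap R S v0) * θ) =
        (z - (algebraMap S T u + algebraMap S T v * θ)) + algebraMap S T (u - algebraMap R S u0) +
          θ * algebraMap S T (v - algebraMap R S v0) := by
      rw [map_sub, map_sub]
      ring
    rw [e]
    exact Ideal.add_mem _ (Ideal.add_mem _ huv (hmem _ hu0)) (Ideal.mul_mem_left _ _ (hmem _ hv0))
  have hmon : (X ^ 2 + C a * X + C b : R[X]).Monic := by monicity!
  have hroot : φ (X ^ 2 + C a * X + C b) = 0 := by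
    rw [hker, map_add, map_add, map_mul, map_pow, aeval_C, aeval_C, aeval_X, htow, htow]
    have e : θ ^ 2 + algebraMap S T (algebraMap R S a) * θ + algebraMap S T (algebraMap R S b) =
        -(θ * algebraMap S T (A - algebraMap R S a)) - algebraMap S T (B - algebraMap R S b) := by
      rw [map_sub, map_sub]
      linear_combination hθ
    rw [e]
    exact Ideal.sub_mem _ (Ideal.neg_mem_iff _ |>.2 (Ideal.mul_mem_left _ _ (hmem _ hA))) (hmem _ hB)
  have hkereq : RingHom.ker φ = Ideal.span {X ^ 2 + C a * X + C b} ⊔ m.map C := by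
    apply le_antisymm
    · intro p hp
      rw [RingHom.mem_ker] at hp
      rcases subsingleton_or_nontrivial R with hs | hs
      · have : p = 0 := Subsingleton.elim _ _
        rw [this]
        exact Ideal.zero_mem _
      have hdiv := modByMonic_add_div p (X ^ 2 + C a * X + C b)
      have hdeg : (p %ₘ (X ^ 2 + C a * X + C b)).natDegree ≤ 1 := by
        have h3 := natDegree_modByMonic_lt p hmon (by
          intro h4
          have h5 : (X ^ 2 + C a * X + C b : R[X]).natDegree = 2 := by compute_degree!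
          rw [h4, natDegree_one] at h5
          omega)
        have h5 : (X ^ 2 + C a * X + C b : R[X]).natDegree = 2 := by compute_degree!
        omega
      obtain ⟨v, u, hr⟩ := exists_eq_X_add_C_of_natDegree_le_one hdeg
      have h6 : φ (p %ₘ (X ^ 2 + C a * X + C b)) = 0 := by
        have h7 : φ p = φ (p %ₘ (X ^ 2 + C a * X + C b)) := by
          conv_lhs => rw [← hdiv]
          rw [map_add, map_mul, hroot, zero_mul, add_zero]
        rw [← h7]
        exact hp
      rw [hker, hr, map_add, map_mul, aeval_C, aeval_C, aeval_X, htow, htow, add_comm] at h6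
      obtain ⟨h8, h9⟩ := h2 _ _ h6
      have h10 := hJm _ h8
      have h11 := hJm _ h9
      rw [← hdiv, hr]
      refine Ideal.add_mem _ (Ideal.mem_sup_right ?_) (Ideal.mem_sup_left ?_)
      · exact Ideal.add_mem _ (Ideal.mul_mem_right _ _ (Ideal.mem_map_of_mem C h11)) (Ideal.mem_map_of_mem C h10)
      · exact Ideal.mul_mem_right _ _ (Ideal.mem_span_singleton_self _)
    · refine sup_le ?_ ?_
      · rw [Ideal.span_singleton_le_iff_mem]
        exact hroot
      · rw [Ideal.map_le_iff_le_comap]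
        intro x hx
        show φ (C x) = 0
        rw [hker, aeval_C, htow]
        exact hmem _ (hmJ x hx)
  exact ⟨((Ideal.quotientEquivAlgOfEq R hkereq.symm).trans (Ideal.quotientKerAlgEquivOfSurjective hφs)).symm⟩

/-- Chinese remainder theorem as algebras -/
lemma crt_iso {ι : Type} [Finite ι] (I : Ideal T) (J : ι → Ideal T) (hJ : Pairwise (Function.onFun IsCoprime J))
    (hI : I = ⨅ i, J i) : Nonempty ((T ⧸ I) ≃ₐ[R] (∀ i, T ⧸ J i)) := by
  let ψ : T →ₐ[R] (∀ i, T ⧸ J i) := AlgHom.pi fun i => Ideal.Quotient.mkₐ R (J i)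
  have hψ : Function.Surjective ψ := by
    intro x
    obtain ⟨r, hr⟩ := Ideal.pi_quotient_surjective hJ x
    exact ⟨r, funext fun i => hr i⟩
  have hk : RingHom.ker ψ = I := by
    rw [hI]
    ext x
    rw [RingHom.mem_ker, Ideal.mem_iInf]
    constructor
    · intro h i
      have := congrFun h i
      exact Ideal.Quotient.eq_zero_iff_mem.1 this
    · intro h
      exact funext fun i => Ideal.Quotient.eq_zero_iff_mem.2 (h i)
  exact ⟨(Ideal.quotientEquivAlgOfEq R hk.symm).trans (Ideal.quotientKerAlgEquivOfSurjective hψ)⟩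

end alg

theorem t_ISO (h : S_QMX) : S_ISO := by
  intro K M L _ _ _ _ _ _ _ _ _ _ m ι _ J a b A B θ hm hF hAB hmax hfr hθ hnr
  classical
  have hinjKM : Function.Injective (algebraMap (𝓞 K) (𝓞 M)) := RingOfIntegers.algebraMap.injective K M
  have hmM : m.map (algebraMap (𝓞 K) (𝓞 M)) ≠ ⊥ := by
    intro h0
    exact hm ((Ideal.map_eq_bot_iff_of_injective hinjKM).1 h0)
  have hJle : ∀ i, m.map (algebraMap (𝓞 K) (𝓞 M)) ≤ J i := fun i => by
    rw [hF.prd]
    exact Ideal.le_of_dvd (Finset.dvd_prod_of_mem J (Finset.mem_univ i))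
  have hJ0 : ∀ i, J i ≠ ⊥ := fun i h0 => hmM (le_bot_iff.1 (h0 ▸ hJle i))
  have hloc : ∀ i, Nonempty ((𝓞 L ⧸ (J i).map (algebraMap (𝓞 M) (𝓞 L))) ≃ₐ[𝓞 K] QA K m (a i) (b i)) := by
    intro i
    have hJ2 : J i ^ 2 ≤ J i := Ideal.pow_le_self (by norm_num)
    have hM : ∀ P : Ideal (𝓞 M), P.IsPrime → J i ≤ P → MaxAt P A B := by
      intro P hP hJP c ⟨hc1, hc2⟩
      have hsq : J i ^ 2 ≤ P ^ 2 := Ideal.pow_right_mono hJP 2
      have hPP : P ^ 2 ≤ P := Ideal.pow_le_self (by norm_num)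
      obtain ⟨c0, hc0⟩ := hF.sur i c
      have k0 := hsq hc0
      have kA := hsq (hAB i).1
      have kB := hsq (hAB i).2
      have k1 : algebraMap (𝓞 K) (𝓞 M) (c0 ^ 2 + a i * c0 + b i) ∈ P ^ 2 := by
        have e : algebraMap (𝓞 K) (𝓞 M) (c0 ^ 2 + a i * c0 + b i) = (c ^ 2 + A * c + B) -
            (c + algebraMap (𝓞 K) (𝓞 M) c0 + algebraMap (𝓞 K) (𝓞 M) (a i)) * (c - algebraMap (𝓞 K) (𝓞 M) c0) -
            c * (A - algebraMap (𝓞 K) (𝓞 M) (a i)) - (B - algebraMap (𝓞 K) (𝓞 M) (b i)) := by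
          rw [map_add, map_add, map_mul, map_pow]
          ring
        rw [e]
        exact Ideal.sub_mem _ (Ideal.sub_mem _ (Ideal.sub_mem _ hc1 (Ideal.mul_mem_left _ _ k0))
          (Ideal.mul_mem_left _ _ kA)) kB
      have k2 : algebraMap (𝓞 K) (𝓞 M) (2 * c0 + a i) ∈ P := by
        have e : algebraMap (𝓞 K) (𝓞 M) (2 * c0 + a i) = (2 * c + A) -
            2 * (c - algebraMap (𝓞 K) (𝓞 M) c0) - (A - algebraMap (𝓞 K) (𝓞 M) (a i)) := by
          rw [map_add, map_mul, map_ofNat]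
          ring
        rw [e]
        exact Ideal.sub_mem _ (Ideal.sub_mem _ hc2 (Ideal.mul_mem_left _ _ (hPP k0))) (hPP kA)
      have k3 := hF.unr P hP ⟨i, hJP⟩ _ k1
      refine hmax i (P.comap (algebraMap (𝓞 K) (𝓞 M))) (Ideal.comap_isPrime _ _) ?_ c0 ⟨k3, k2⟩
      exact Ideal.map_le_iff_le_comap.1 ((hJle i).trans hJP)
    obtain ⟨q1, q2⟩ := h M L (J i) A B θ (hJ0 i) hfr hθ hnr hM
    refine local_iso (R := 𝓞 K) (S := 𝓞 M) (T := 𝓞 L) m (J i) (a i) (b i) A B θ ?_ (hF.inj i) ?_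
      (hJ2 (hAB i).1) (hJ2 (hAB i).2) hθ q1 q2
    · intro x hx
      exact hJle i (Ideal.mem_map_of_mem _ hx)
    · intro x
      obtain ⟨y, hy⟩ := hF.sur i x
      exact ⟨y, hJ2 hy⟩
  have hcopL : Pairwise (Function.onFun IsCoprime fun i => (J i).map (algebraMap (𝓞 M) (𝓞 L))) := by
    intro i j hij
    have h1 := hF.cop i j hij
    show IsCoprime ((J i).map (algebraMap (𝓞 M) (𝓞 L))) ((J j).map (algebraMap (𝓞 M) (𝓞 L)))
    rw [Ideal.isCoprime_iff_sup_eq] at h1 ⊢
    rw [← Ideal.map_sup, h1, Ideal.map_top]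
  have hprod : m.map (algebraMap (𝓞 K) (𝓞 L)) = ⨅ i, (J i).map (algebraMap (𝓞 M) (𝓞 L)) := by
    have e1 : m.map (algebraMap (𝓞 K) (𝓞 L)) = (m.map (algebraMap (𝓞 K) (𝓞 M))).map (algebraMap (𝓞 M) (𝓞 L)) := by
      rw [Ideal.map_map, ← IsScalarTower.algebraMap_eq]
    rw [e1, hF.prd, ← Ideal.mapHom_apply, map_prod]
    rw [show (∏ i, (Ideal.mapHom (algebraMap (𝓞 M) (𝓞 L))) (J i)) = ∏ i ∈ (Finset.univ : Finset ι),
      (J i).map (algebraMap (𝓞 M) (𝓞 L)) from rfl]
    rw [Ideal.prod_eq_iInf_of_pairwise_isCoprime (fun i _ j _ hij => hcopL hij)]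
    simp only [Finset.mem_univ, iInf_pos]
  obtain ⟨e0⟩ := crt_iso (R := 𝓞 K) (T := 𝓞 L) (m.map (algebraMap (𝓞 K) (𝓞 L)))
    (fun i => (J i).map (algebraMap (𝓞 M) (𝓞 L))) hcopL hprod
  exact ⟨e0.trans (AlgEquiv.piCongrRight fun i => (hloc i).some)⟩

end Pool.Agent.H419.MK.ISO
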