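import Mathlib
import Pool.Agent.H419.MK.Stm

/-! # Dedekind's criterion for quadratic orders -/

set_option autoImplicit false

open NumberField Polynomial

namespace Pool.Agent.H419.MK.QMX

/-- F1: for `π ∈ P`, `π ∉ P²` there is `r ∉ P` with `r P ⊆ (π)`. -/
theorem exists_r {A : Type} [CommRing A] [IsDedekindDomain A] (P : Ideal A)
    (π : A) (h1 : π ∈ P) (h2 : π ∉ P ^ 2) :
    ∃ r : A, r ∉ P ∧ ∀ u ∈ P, ∃ u' : A, r * u = π * u' := by
  have h3 : P ∣ Ideal.span {π} := Ideal.dvd_iff_le.2 ((Ideal.span_singleton_le_iff_mem P).2 h1)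
  obtain ⟨I, hI⟩ := h3
  have h4 : ¬ I ≤ P := by
    intro h
    apply h2
    rw [← Ideal.span_singleton_le_iff_mem, hI, pow_two]
    exact Ideal.mul_mono_right h
  obtain ⟨r, hr, hrP⟩ := Set.not_subset.1 h4
  refine ⟨r, hrP, fun u hu => ?_⟩
  have h5 : r * u ∈ Ideal.span {π} := by
    have h6 : u * r ∈ P * I := Ideal.mul_mem_mul hu hr
    rw [hI, mul_comm r u]
    exact h6
  obtain ⟨u', hu'⟩ := Ideal.mem_span_singleton.1 h5
  exact ⟨u', hu'⟩

/-- F2: a power of `π` times an element outside `P` is a multiple of `d`. -/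
theorem exists_k {A : Type} [CommRing A] [IsDedekindDomain A] (P : Ideal A) (hP : P.IsPrime)
    (π d : A) (h1 : π ∈ P) (hd : d ≠ 0) :
    ∃ (k : ℕ) (t : A), t ∉ P ∧ d ∣ t * π ^ k := by
  have hd' : Ideal.span {d} ≠ ⊥ := by
    rw [Ne, Ideal.span_singleton_eq_bot]
    exact hd
  have hunit : ¬ IsUnit P := by
    rw [Ideal.isUnit_iff]
    exact hP.ne_top
  have hfin : FiniteMultiplicity P (Ideal.span {d}) := FiniteMultiplicity.of_not_isUnit hunit hd'
  obtain ⟨I, hI, hI2⟩ := hfin.exists_eq_pow_mul_and_not_dvd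
  have h4 : ¬ I ≤ P := fun h => hI2 (Ideal.dvd_iff_le.2 h)
  obtain ⟨t, ht, htP⟩ := Set.not_subset.1 h4
  refine ⟨multiplicity P (Ideal.span {d}), t, htP, ?_⟩
  have h6 : π ^ (multiplicity P (Ideal.span {d})) * t ∈
      P ^ multiplicity P (Ideal.span {d}) * I := Ideal.mul_mem_mul (Ideal.pow_mem_pow h1 _) ht
  rw [← hI, mul_comm] at h6
  exact Ideal.mem_span_singleton.1 h6

/-- F3: an inverse modulo `P²`. -/
theorem exists_inv {A : Type} [CommRing A] [IsDedekindDomain A] (P : Ideal A) (hP : P.IsPrime)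
    (hP0 : P ≠ ⊥) (v : A) (hv : v ∉ P) : ∃ v' : A, v * v' - 1 ∈ P ^ 2 := by
  have hmax : P.IsMaximal := hP.isMaximal hP0
  obtain ⟨y, i, hi, hyi⟩ := hmax.exists_inv hv
  refine ⟨y ^ 2 * v + 2 * y * i, ?_⟩
  have h1 : v * (y ^ 2 * v + 2 * y * i) - 1 = - i ^ 2 := by
    linear_combination (y * v + i + 1) * hyi
  rw [h1]
  exact neg_mem (Ideal.pow_mem_pow hi 2)

variable {M L : Type} [Field M] [NumberField M] [Field L] [NumberField L] [Algebra M L]

/-- `w z` lies in the order generated by `θ`. -/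
def Good (θ : 𝓞 L) (w : 𝓞 M) (z : 𝓞 L) : Prop :=
  ∃ u v : 𝓞 M, algebraMap (𝓞 M) (𝓞 L) w * z =
    algebraMap (𝓞 M) (𝓞 L) u + algebraMap (𝓞 M) (𝓞 L) v * θ

omit [NumberField M] [NumberField L] in
theorem Good.mul {θ : 𝓞 L} {w : 𝓞 M} {z : 𝓞 L} (h : Good θ w z) (r : 𝓞 M) : Good θ (r * w) z := by
  obtain ⟨u, v, h⟩ := h
  refine ⟨r * u, r * v, ?_⟩
  simp only [map_mul]
  linear_combination algebraMap (𝓞 M) (𝓞 L) r * h

omit [NumberField M] [NumberField L] in
theorem Good.add {θ : 𝓞 L} {w w' : 𝓞 M} {z : 𝓞 L} (h : Good θ w z) (h' : Good θ w' z) :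
    Good θ (w + w') z := by
  obtain ⟨u, v, h⟩ := h
  obtain ⟨u', v', h'⟩ := h'
  refine ⟨u + u', v + v', ?_⟩
  simp only [map_add]
  linear_combination h + h'

/-- the basis `1, θ` -/
theorem exists_basis (θ : 𝓞 L) (h2 : Module.finrank M L = 2)
    (hθ : ∀ x : M, algebraMap M L x ≠ (θ : L)) :
    ∃ B : Module.Basis (Fin 2) M L, B 0 = 1 ∧ B 1 = (θ : L) := by
  have hli : LinearIndependent M ![(1 : L), (θ : L)] := by
    rw [LinearIndependent.pair_iff]
    intro s t hst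
    have ht : t = 0 := by
      by_contra ht
      apply hθ (- s / t)
      rw [Algebra.smul_def, Algebra.smul_def, mul_one] at hst
      have ht' : algebraMap M L t ≠ 0 := by
        rw [Ne, map_eq_zero]
        exact ht
      rw [map_div₀, map_neg, div_eq_iff ht']
      linear_combination (-1 : L) * hst
    subst ht
    refine ⟨?_, rfl⟩
    rw [zero_smul, add_zero, Algebra.smul_def, mul_one, map_eq_zero] at hst
    exact hst
  refine ⟨basisOfLinearIndependentOfCardEqFinrank hli (by rw [h2]; rfl), ?_, ?_⟩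
  · simp
  · simp

theorem uniq (θ : 𝓞 L)
    (hθ : ∀ x : M, algebraMap M L x ≠ (θ : L)) (u v u' v' : 𝓞 M)
    (h : algebraMap (𝓞 M) (𝓞 L) u + algebraMap (𝓞 M) (𝓞 L) v * θ =
      algebraMap (𝓞 M) (𝓞 L) u' + algebraMap (𝓞 M) (𝓞 L) v' * θ) : u = u' ∧ v = v' := by
  have h1 : algebraMap M L (u : M) + algebraMap M L (v : M) * (θ : L) =
      algebraMap M L (u' : M) + algebraMap M L (v' : M) * (θ : L) := by
    have := congrArg (fun z : 𝓞 L => (z : L)) h
    exact this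
  have hv : v = v' := by
    by_contra hv
    have hv' : algebraMap M L ((v : M) - (v' : M)) ≠ 0 := by
      rw [Ne, map_eq_zero, sub_eq_zero]
      intro h3
      exact hv (RingOfIntegers.ext h3)
    apply hθ (((u' : M) - (u : M)) / ((v : M) - (v' : M)))
    rw [map_div₀, div_eq_iff hv', map_sub, map_sub]
    linear_combination (-1 : L) * h1
  subst hv
  refine ⟨?_, rfl⟩
  have h3 : algebraMap M L (u : M) = algebraMap M L (u' : M) := by
    linear_combination h1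
  exact RingOfIntegers.ext ((algebraMap M L).injective h3)

/-- a common denominator -/
theorem exists_den (θ : 𝓞 L) (h2 : Module.finrank M L = 2)
    (hθ : ∀ x : M, algebraMap M L x ≠ (θ : L)) (z : 𝓞 L) :
    ∃ d : 𝓞 M, d ≠ 0 ∧ Good θ d z := by
  obtain ⟨B, hB0, hB1⟩ := exists_basis θ h2 hθ
  obtain ⟨x1, d1, hd1, hx⟩ := IsFractionRing.div_surjective (𝓞 M) (B.repr (z : L) 0)
  obtain ⟨y1, d2, hd2, hy⟩ := IsFractionRing.div_surjective (𝓞 M) (B.repr (z : L) 1)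
  have hd1' : d1 ≠ 0 := nonZeroDivisors.ne_zero hd1
  have hd2' : d2 ≠ 0 := nonZeroDivisors.ne_zero hd2
  refine ⟨d1 * d2, mul_ne_zero hd1' hd2', x1 * d2, y1 * d1, ?_⟩
  apply RingOfIntegers.ext
  have hz : (z : L) = algebraMap M L (B.repr (z : L) 0) + algebraMap M L (B.repr (z : L) 1) *
      (θ : L) := by
    conv_lhs => rw [← B.sum_repr (z : L)]
    rw [Fin.sum_univ_two, hB0, hB1, Algebra.smul_def, Algebra.smul_def, mul_one]
  have e : ((algebraMap (𝓞 M) (𝓞 L) (d1 * d2) * z : 𝓞 L) : L) =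
      algebraMap M L ((d1 : M) * (d2 : M)) * (z : L) := rfl
  have e' : ((algebraMap (𝓞 M) (𝓞 L) (x1 * d2) + algebraMap (𝓞 M) (𝓞 L) (y1 * d1) * θ : 𝓞 L) : L)
    = algebraMap M L ((x1 : M) * (d2 : M)) + algebraMap M L ((y1 : M) * (d1 : M)) * (θ : L) := rfl
  rw [e, e', hz, ← hx, ← hy]
  have k1 : algebraMap M L ((d1 : M) * (d2 : M)) * algebraMap M L
      (algebraMap (𝓞 M) M x1 / algebraMap (𝓞 M) M d1) =
      algebraMap M L ((x1 : M) * (d2 : M)) := by
    rw [← map_mul]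
    congr 1
    have : algebraMap (𝓞 M) M d1 ≠ 0 := by
      rw [Ne, RingOfIntegers.coe_eq_zero_iff]
      exact hd1'
    field_simp
  have k2 : algebraMap M L ((d1 : M) * (d2 : M)) * algebraMap M L
      (algebraMap (𝓞 M) M y1 / algebraMap (𝓞 M) M d2) =
      algebraMap M L ((y1 : M) * (d1 : M)) := by
    rw [← map_mul]
    congr 1
    have : algebraMap (𝓞 M) M d2 ≠ 0 := by
      rw [Ne, RingOfIntegers.coe_eq_zero_iff]
      exact hd2'
    field_simp
  linear_combination k1 + (θ : L) * k2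

/-- norm and trace of `u + v θ` -/
theorem norm_trace (a b : 𝓞 M) (θ : 𝓞 L) (h2 : Module.finrank M L = 2)
    (hq : θ ^ 2 + algebraMap (𝓞 M) (𝓞 L) a * θ + algebraMap (𝓞 M) (𝓞 L) b = 0)
    (hθ : ∀ x : M, algebraMap M L x ≠ (θ : L)) (π u v : 𝓞 M) (z : 𝓞 L)
    (hz : algebraMap (𝓞 M) (𝓞 L) π * z =
      algebraMap (𝓞 M) (𝓞 L) u + algebraMap (𝓞 M) (𝓞 L) v * θ) :
    ∃ N T : 𝓞 M, π ^ 2 * N = u ^ 2 - a * u * v + b * v ^ 2 ∧ π * T = 2 * u - a * v := by
  obtain ⟨B, hB0, hB1⟩ := exists_basis θ h2 hθ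
  have hq' : (θ : L) ^ 2 + algebraMap M L (a : M) * (θ : L) + algebraMap M L (b : M) = 0 := by
    have := congrArg (fun z : 𝓞 L => (z : L)) hq
    exact this
  have hz' : algebraMap M L (π : M) * (z : L) = algebraMap M L (u : M) + algebraMap M L (v : M) *
      (θ : L) := by
    have := congrArg (fun z : 𝓞 L => (z : L)) hz
    exact this
  have hmat : Algebra.leftMulMatrix B (algebraMap M L (π : M) * (z : L)) =
      !![(u : M), -(b : M) * (v : M); (v : M), (u : M) - (a : M) * (v : M)] := by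
    rw [hz']
    have c0 : (algebraMap M L (u : M) + algebraMap M L (v : M) * (θ : L)) * B 0 =
        (u : M) • B 0 + (v : M) • B 1 := by
      rw [hB0, hB1, Algebra.smul_def, Algebra.smul_def]
      ring
    have c1 : (algebraMap M L (u : M) + algebraMap M L (v : M) * (θ : L)) * B 1 =
        (-(b : M) * (v : M)) • B 0 + ((u : M) - (a : M) * (v : M)) • B 1 := by
      rw [hB0, hB1, Algebra.smul_def, Algebra.smul_def]
      simp only [map_mul, map_neg, map_sub]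
      linear_combination algebraMap M L (v : M) * hq'
    ext i j
    rw [Algebra.leftMulMatrix_eq_repr_mul]
    fin_cases j
    · rw [show (⟨0, by norm_num⟩ : Fin 2) = 0 from rfl, c0, map_add, map_smul, map_smul,
        B.repr_self, B.repr_self, Finsupp.add_apply, Finsupp.smul_apply, Finsupp.smul_apply]
      fin_cases i <;> simp
    · rw [show (⟨1, by norm_num⟩ : Fin 2) = 1 from rfl, c1, map_add, map_smul, map_smul,
        B.repr_self, B.repr_self, Finsupp.add_apply, Finsupp.smul_apply, Finsupp.smul_apply]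
      fin_cases i <;> simp
  have hN : Algebra.norm M (algebraMap M L (π : M) * (z : L)) =
      (u : M) ^ 2 - (a : M) * (u : M) * (v : M) + (b : M) * (v : M) ^ 2 := by
    rw [Algebra.norm_eq_matrix_det B, hmat, Matrix.det_fin_two_of]
    ring
  have hT : Algebra.trace M L (algebraMap M L (π : M) * (z : L)) =
      2 * (u : M) - (a : M) * (v : M) := by
    rw [Algebra.trace_eq_matrix_trace B, hmat, Matrix.trace_fin_two_of]
    ring
  have hTi : IsIntegral ℤ (Algebra.trace M L (z : L)) :=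
    Algebra.isIntegral_trace (RingOfIntegers.isIntegral_coe z)
  obtain ⟨T, hTe⟩ : ∃ T : 𝓞 M, (T : M) = Algebra.trace M L (z : L) := ⟨⟨_, hTi⟩, rfl⟩
  refine ⟨RingOfIntegers.norm M z, T, ?_, ?_⟩
  · apply RingOfIntegers.ext
    rw [map_mul, Algebra.norm_algebraMap, h2] at hN
    have e1 : ((π ^ 2 * RingOfIntegers.norm M z : 𝓞 M) : M) =
        (π : M) ^ 2 * ((RingOfIntegers.norm M z : 𝓞 M) : M) := rfl
    rw [e1, RingOfIntegers.coe_norm, hN]
    rfl
  · apply RingOfIntegers.ext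
    rw [← Algebra.smul_def, map_smul, smul_eq_mul] at hT
    rw [← hTe] at hT
    exact hT

/-- the key lemma -/
theorem key (P : Ideal (𝓞 M)) (hP : P.IsPrime) (hP0 : P ≠ ⊥) (a b : 𝓞 M) (θ : 𝓞 L)
    (h2 : Module.finrank M L = 2)
    (hq : θ ^ 2 + algebraMap (𝓞 M) (𝓞 L) a * θ + algebraMap (𝓞 M) (𝓞 L) b = 0)
    (hθ : ∀ x : M, algebraMap M L x ≠ (θ : L)) (hm : MaxAt P a b) (z : 𝓞 L) :
    ∃ w : 𝓞 M, w ∉ P ∧ Good θ w z := by
  by_contra hcon
  have hcon' : ∀ w : 𝓞 M, w ∉ P → ¬ Good θ w z := fun w hw hg => hcon ⟨w, hw, hg⟩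
  obtain ⟨π, hπ1, hπ2⟩ := Ideal.exists_mem_pow_notMem_pow_succ P hP0 hP.ne_top 1
  rw [pow_one] at hπ1
  have hπ0 : π ≠ 0 := by
    rintro rfl
    exact hπ2 (Submodule.zero_mem _)
  obtain ⟨r, hrP, hr⟩ := exists_r P π hπ1 hπ2
  obtain ⟨d, hd0, hd⟩ := exists_den θ h2 hθ z
  have hex : ∃ k : ℕ, ∃ t : 𝓞 M, t ∉ P ∧ Good θ (t * π ^ k) z := by
    obtain ⟨k, t, htP, s, hs⟩ := exists_k P hP π d hπ1 hd0
    refine ⟨k, t, htP, ?_⟩
    rw [hs, mul_comm]
    exact hd.mul s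
  classical
  obtain ⟨k, hk⟩ : ∃ k, k = Nat.find hex := ⟨_, rfl⟩
  obtain ⟨t, htP, ht⟩ := Nat.find_spec hex
  have hmin : ∀ m, m < k → ¬ ∃ t : 𝓞 M, t ∉ P ∧ Good θ (t * π ^ m) z := by
    intro m hm'
    rw [hk] at hm'
    exact Nat.find_min hex hm'
  rw [← hk] at ht
  obtain _ | k := k
  · rw [pow_zero, mul_one] at ht
    exact hcon' t htP ht
  obtain ⟨u, v, huv⟩ := ht
  obtain ⟨z', hz'⟩ : ∃ z' : 𝓞 L, z' = algebraMap (𝓞 M) (𝓞 L) (t * π ^ k) * z := ⟨_, rfl⟩
  have hπz : algebraMap (𝓞 M) (𝓞 L) π * z' =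
      algebraMap (𝓞 M) (𝓞 L) u + algebraMap (𝓞 M) (𝓞 L) v * θ := by
    rw [← huv, hz', pow_succ]
    simp only [map_mul, map_pow]
    ring
  have hnot : ¬ (u ∈ P ∧ v ∈ P) := by
    rintro ⟨hu, hv⟩
    obtain ⟨u', hu'⟩ := hr u hu
    obtain ⟨v', hv'⟩ := hr v hv
    apply hmin k (Nat.lt_succ_self k)
    refine ⟨r * t, ?_, u', v', ?_⟩
    · intro h
      rcases hP.mem_or_mem h with h | h
      · exact hrP h
      · exact htP h
    · have hπ0' : algebraMap (𝓞 M) (𝓞 L) π ≠ 0 := by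
        intro h
        apply hπ0
        apply RingOfIntegers.ext
        have h3 : algebraMap M L (π : M) = 0 := by
          have := congrArg (fun z : 𝓞 L => (z : L)) h
          exact this
        rw [map_eq_zero] at h3
        exact h3
      apply mul_left_cancel₀ hπ0'
      have e1 : algebraMap (𝓞 M) (𝓞 L) r * algebraMap (𝓞 M) (𝓞 L) u =
          algebraMap (𝓞 M) (𝓞 L) π * algebraMap (𝓞 M) (𝓞 L) u' := by
        rw [← map_mul, hu', map_mul]
      have e2 : algebraMap (𝓞 M) (𝓞 L) r * algebraMap (𝓞 M) (𝓞 L) v =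
          algebraMap (𝓞 M) (𝓞 L) π * algebraMap (𝓞 M) (𝓞 L) v' := by
        rw [← map_mul, hv', map_mul]
      have e3 : algebraMap (𝓞 M) (𝓞 L) (r * t * π ^ k) * z = algebraMap (𝓞 M) (𝓞 L) r * z' := by
        rw [hz', mul_assoc r t, map_mul (algebraMap (𝓞 M) (𝓞 L)) r]
        ring
      rw [e3]
      linear_combination algebraMap (𝓞 M) (𝓞 L) r * hπz + e1 + θ * e2
  obtain ⟨N, T, hN, hT⟩ := norm_trace a b θ h2 hq hθ π u v z' hπz
  have hvP : v ∉ P := by
    intro hv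
    apply hnot
    refine ⟨?_, hv⟩
    have h3 : u ^ 2 ∈ P := by
      have h4 : u ^ 2 = π * (π * N) + (a * u - b * v) * v := by linear_combination -hN
      rw [h4]
      exact P.add_mem (P.mul_mem_right _ hπ1) (P.mul_mem_left _ hv)
    exact hP.mem_of_pow_mem 2 h3
  obtain ⟨v', hv'⟩ := exists_inv P hP hP0 v hvP
  apply hm (- u * v')
  constructor
  · have h5 : (- u * v') ^ 2 + a * (- u * v') + b =
        v' ^ 2 * N * π ^ 2 + (a * u * v' - b * (v * v' + 1)) * (v * v' - 1) := by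
      linear_combination - v' ^ 2 * hN
    rw [h5]
    refine Ideal.add_mem _ ?_ ?_
    · exact Ideal.mul_mem_left _ _ (Ideal.pow_mem_pow hπ1 2)
    · exact Ideal.mul_mem_left _ _ hv'
  · have hv2 : v * v' - 1 ∈ P := by
      have := Ideal.pow_le_self (I := P) (n := 2) (by norm_num) hv'
      exact this
    have h6 : 2 * (- u * v') + a = - v' * T * π - a * (v * v' - 1) := by
      linear_combination v' * hT
    rw [h6]
    exact P.sub_mem (P.mul_mem_left _ hπ1) (P.mul_mem_left _ hv2)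

theorem cop (𝔫 : Ideal (𝓞 M)) (a b : 𝓞 M) (θ : 𝓞 L) (hn : 𝔫 ≠ ⊥)
    (h2 : Module.finrank M L = 2)
    (hq : θ ^ 2 + algebraMap (𝓞 M) (𝓞 L) a * θ + algebraMap (𝓞 M) (𝓞 L) b = 0)
    (hθ : ∀ x : M, algebraMap M L x ≠ (θ : L))
    (hm : ∀ P : Ideal (𝓞 M), P.IsPrime → 𝔫 ≤ P → MaxAt P a b) (z : 𝓞 L) :
    ∃ w : 𝓞 M, 1 - w ∈ 𝔫 ∧ Good θ w z := by
  let I : Ideal (𝓞 M) :=
    { carrier := {w | Good θ w z}
      add_mem' := fun h h' => h.add h'
      zero_mem' := ⟨0, 0, by simp⟩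
      smul_mem' := fun c x h => h.mul c }
  have hI : I ⊔ 𝔫 = ⊤ := by
    by_contra hne
    obtain ⟨P, hPm, hPle⟩ := Ideal.exists_le_maximal _ hne
    have hnP : 𝔫 ≤ P := le_trans le_sup_right hPle
    have hP0 : P ≠ ⊥ := by
      rintro rfl
      exact hn (le_bot_iff.1 hnP)
    obtain ⟨w, hwP, hw⟩ := key P hPm.isPrime hP0 a b θ h2 hq hθ (hm P hPm.isPrime hnP) z
    exact hwP (hPle (Ideal.mem_sup_left (show w ∈ I from hw)))
  have h1 : (1 : 𝓞 M) ∈ I ⊔ 𝔫 := by rw [hI]; trivial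
  obtain ⟨w, hw, m, hm', hwm⟩ := Submodule.mem_sup.1 h1
  refine ⟨w, ?_, hw⟩
  have : 1 - w = m := by rw [← hwm]; ring
  rw [this]
  exact hm'

theorem t_QMX : S_QMX := by
  intro M L _ _ _ _ _ 𝔫 a b θ hn h2 hq hθ hm
  have hcop := cop 𝔫 a b θ hn h2 hq hθ hm
  refine ⟨?_, ?_⟩
  · intro z
    obtain ⟨w, hw, u, v, huv⟩ := hcop z
    refine ⟨u, v, ?_⟩
    have h3 : z - (algebraMap (𝓞 M) (𝓞 L) u + algebraMap (𝓞 M) (𝓞 L) v * θ) =
        z * algebraMap (𝓞 M) (𝓞 L) (1 - w) := by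
      rw [← huv, map_sub, map_one]
      ring
    rw [h3]
    exact Ideal.mul_mem_left _ _ (Ideal.mem_map_of_mem _ hw)
  · have hgen : ∀ x ∈ 𝔫.map (algebraMap (𝓞 M) (𝓞 L)), ∃ w : 𝓞 M, 1 - w ∈ 𝔫 ∧ ∃ u ∈ 𝔫, ∃ v ∈ 𝔫,
        algebraMap (𝓞 M) (𝓞 L) w * x =
          algebraMap (𝓞 M) (𝓞 L) u + algebraMap (𝓞 M) (𝓞 L) v * θ := by
      intro x hx
      rw [Ideal.map] at hx
      induction hx using Submodule.span_induction with
      | mem x hx =>
        obtain ⟨m, hm', rfl⟩ := hx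
        refine ⟨1, by simp, m, hm', 0, 𝔫.zero_mem, by simp⟩
      | zero => exact ⟨1, by simp, 0, 𝔫.zero_mem, 0, 𝔫.zero_mem, by simp⟩
      | add x y _ _ hx hy =>
        obtain ⟨w, hw, u, hu, v, hv, h⟩ := hx
        obtain ⟨w', hw', u', hu', v', hv', h'⟩ := hy
        refine ⟨w * w', ?_, w' * u + w * u', ?_, w' * v + w * v', ?_, ?_⟩
        · have e : 1 - w * w' = (1 - w) + w * (1 - w') := by ring
          rw [e]
          exact 𝔫.add_mem hw (𝔫.mul_mem_left _ hw')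
        · exact 𝔫.add_mem (𝔫.mul_mem_left _ hu) (𝔫.mul_mem_left _ hu')
        · exact 𝔫.add_mem (𝔫.mul_mem_left _ hv) (𝔫.mul_mem_left _ hv')
        · simp only [map_mul, map_add]
          linear_combination algebraMap (𝓞 M) (𝓞 L) w' * h + algebraMap (𝓞 M) (𝓞 L) w * h'
      | smul z x _ hx =>
        obtain ⟨w, hw, u, hu, v, hv, h⟩ := hx
        obtain ⟨w', hw', u', v', h'⟩ := hcop z
        refine ⟨w * w', ?_, u * u' - b * v * v', ?_, u * v' + v * u' - a * v * v', ?_, ?_⟩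
        · have e : 1 - w * w' = (1 - w) + w * (1 - w') := by ring
          rw [e]
          exact 𝔫.add_mem hw (𝔫.mul_mem_left _ hw')
        · refine 𝔫.sub_mem (𝔫.mul_mem_right _ hu) ?_
          exact 𝔫.mul_mem_right _ (𝔫.mul_mem_left _ hv)
        · refine 𝔫.sub_mem (𝔫.add_mem (𝔫.mul_mem_right _ hu) (𝔫.mul_mem_right _ hv)) ?_
          exact 𝔫.mul_mem_right _ (𝔫.mul_mem_left _ hv)
        · simp only [map_mul, map_add, map_sub, smul_eq_mul]
          linear_combination (algebraMap (𝓞 M) (𝓞 L) w' * z) * h +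
            (algebraMap (𝓞 M) (𝓞 L) u + algebraMap (𝓞 M) (𝓞 L) v * θ) * h' +
            algebraMap (𝓞 M) (𝓞 L) v * algebraMap (𝓞 M) (𝓞 L) v' * hq
    intro u v huv
    obtain ⟨w, hw, u', hu', v', hv', h⟩ := hgen _ huv
    have h3 : algebraMap (𝓞 M) (𝓞 L) (w * u) + algebraMap (𝓞 M) (𝓞 L) (w * v) * θ =
        algebraMap (𝓞 M) (𝓞 L) u' + algebraMap (𝓞 M) (𝓞 L) v' * θ := by
      rw [← h]
      simp only [map_mul]
      ring
    obtain ⟨h4, h5⟩ := uniq θ hθ _ _ _ _ h3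
    constructor
    · have e : u = (1 - w) * u + w * u := by ring
      rw [e, h4]
      exact 𝔫.add_mem (𝔫.mul_mem_right _ hw) hu'
    · have e : v = (1 - w) * v + w * v := by ring
      rw [e, h5]
      exact 𝔫.add_mem (𝔫.mul_mem_right _ hw) hv'

end Pool.Agent.H419.MK.QMX
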