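import Pool.Agent.H419.MK.Stm
import Pool.Graph.R_pool_sql_team_seeded_64922ed1.X257.ML.Desc

/-! # Regular realisation with one polynomial, for all extensions of the base field (helper168) -/

set_option autoImplicit false

open Polynomial
open Pool.Agent.TH444.TW (RegularOver)

namespace Pool.Agent.H419.MK.RGP

section galois

variable {E E' F₁ : Type} [Field E] [Field E'] [Field F₁] [Algebra E E'] [Algebra E F₁]
  [FiniteDimensional E F₁] [IsGalois E F₁]

/-- The base change of a Galois extension with a primitive element whose minimal polynomial stays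
irreducible. -/
theorem base_change (y : F₁) (hy : IntermediateField.adjoin E {y} = ⊤)
    (hirr : Irreducible ((minpoly E y).map (algebraMap E E'))) :
    ∃ (F : Type) (_ : Field F) (_ : Algebra E' F), FiniteDimensional E' F ∧ IsGalois E' F ∧
      Nonempty ((F ≃ₐ[E'] F) ≃* (F₁ ≃ₐ[E] F₁)) ∧
      ∃ y' : F, minpoly E' y' = (minpoly E y).map (algebraMap E E') := by
  classical
  have hint : IsIntegral E y := Algebra.IsIntegral.isIntegral y
  set G : E'[X] := (minpoly E y).map (algebraMap E E') with hG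
  have hGm : G.Monic := (minpoly.monic hint).map _
  have : Fact (Irreducible G) := ⟨hirr⟩
  let F := AdjoinRoot G
  let y' : F := AdjoinRoot.root G
  have hy' : minpoly E' y' = G := by
    rw [AdjoinRoot.minpoly_root hGm.ne_zero, hGm.leadingCoeff, inv_one, C_1, mul_one]
  have hay0 : aeval y' G = 0 := by
    rw [AdjoinRoot.aeval_eq, AdjoinRoot.mk_self]
  have hay : aeval y' (minpoly E y) = 0 :=
    (aeval_map_algebraMap E' y' (minpoly E y)).symm.trans hay0
  -- the power bases
  let pb : PowerBasis E F₁ := (IntermediateField.adjoin.powerBasis hint).map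
    ((IntermediateField.equivOfEq hy).trans IntermediateField.topEquiv)
  have hpb : pb.gen = y := by
    simp only [pb, PowerBasis.map_gen, IntermediateField.adjoin.powerBasis_gen]
    rfl
  let pb' : PowerBasis E' F := AdjoinRoot.powerBasis hGm.ne_zero
  have hpb' : pb'.gen = y' := rfl
  have : FiniteDimensional E' F := pb'.finite
  let j : F₁ →ₐ[E] F := pb.lift y' (by rw [hpb]; exact hay)
  have hj : j y = y' := by
    have h : j pb.gen = y' := pb.lift_gen y' (by rw [hpb]; exact hay)
    rw [hpb] at h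
    exact h
  have hroot : ∀ σ : F₁ ≃ₐ[E] F₁, aeval (j (σ y)) (minpoly E' pb'.gen) = 0 := by
    intro σ
    have h1 : aeval (j (σ y)) (minpoly E y) = j (σ (aeval y (minpoly E y))) := by
      rw [aeval_algHom_apply]
      congr 1
      exact aeval_algHom_apply (σ : F₁ →ₐ[E] F₁) y (minpoly E y)
    rw [minpoly.aeval, map_zero, map_zero] at h1
    rw [hpb', hy']
    exact (aeval_map_algebraMap E' (j (σ y)) (minpoly E y)).trans h1
  let τ : (F₁ ≃ₐ[E] F₁) → (F →ₐ[E'] F) := fun σ => pb'.lift (j (σ y)) (hroot σ)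
  have hτ : ∀ σ, τ σ y' = j (σ y) := fun σ => pb'.lift_gen (j (σ y)) (hroot σ)
  have hτj : ∀ σ, ((τ σ).restrictScalars E).comp j = j.comp (σ : F₁ →ₐ[E] F₁) := by
    intro σ
    apply pb.algHom_ext
    rw [hpb]
    change τ σ (j y) = j (σ y)
    rw [hj, hτ]
  have hτj' : ∀ σ x, τ σ (j x) = j (σ x) := fun σ x => DFunLike.congr_fun (hτj σ) x
  let Ψ : (F₁ ≃ₐ[E] F₁) →* (F →ₐ[E'] F) :=
    { toFun := τ
      map_one' := by
        apply pb'.algHom_ext
        rw [hpb', hτ]
        exact hj
      map_mul' := by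
        intro σ ρ
        apply pb'.algHom_ext
        rw [hpb', hτ]
        change j (σ (ρ y)) = τ σ (τ ρ y')
        rw [hτ, hτj'] }
  let Θ : (F₁ ≃ₐ[E] F₁) →* (F ≃ₐ[E'] F) :=
    (Algebra.IsAlgebraic.algEquivEquivAlgHom E' F).symm.toMonoidHom.comp Ψ
  have hΘ : Function.Injective Θ := by
    have h1 : Function.Injective Ψ := by
      intro σ ρ h
      have h2 : j (σ y) = j (ρ y) := by
        rw [← hτ, ← hτ]
        exact DFunLike.congr_fun h y'
      have h3 : σ y = ρ y := j.injective h2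
      apply AlgEquiv.coe_toAlgHom_injective
      apply pb.algHom_ext
      rw [hpb]
      exact h3
    exact (Algebra.IsAlgebraic.algEquivEquivAlgHom E' F).symm.injective.comp h1
  have hdim : Module.finrank E F₁ = Module.finrank E' F := by
    rw [pb.finrank, pb'.finrank, ← pb.natDegree_minpoly, ← pb'.natDegree_minpoly, hpb, hpb', hy',
      hG, natDegree_map]
  have hcard1 : Nat.card (F₁ ≃ₐ[E] F₁) = Module.finrank E F₁ := IsGalois.card_aut_eq_finrank E F₁
  have hcard2 : Nat.card (F ≃ₐ[E'] F) ≤ Module.finrank E' F := by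
    rw [Nat.card_eq_fintype_card]
    exact AlgEquiv.card_le
  have hcard3 : Nat.card (F₁ ≃ₐ[E] F₁) ≤ Nat.card (F ≃ₐ[E'] F) := Nat.card_le_card_of_injective Θ hΘ
  have hcard : Nat.card (F₁ ≃ₐ[E] F₁) = Nat.card (F ≃ₐ[E'] F) := by omega
  have hgal : IsGalois E' F := IsGalois.of_card_aut_eq_finrank E' F (by omega)
  have hbij : Function.Bijective Θ :=
    (Nat.bijective_iff_injective_and_card Θ).2 ⟨hΘ, hcard⟩
  exact ⟨F, inferInstance, inferInstance, inferInstance, hgal,
    ⟨(MulEquiv.ofBijective Θ hbij).symm⟩, y', hy'⟩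

end galois

/-- **Task RGP.** -/
theorem t_RGP : S_RGP := by
  classical
  intro H _ _
  obtain ⟨K₁, iK₁, hnf, F₁, iF, iA, iAK, tow, fd, gal, ⟨γ⟩, hreg0⟩ :=
    Pool.Agent.X257.ML.exists_numberField H
  have hreg : ∀ x : F₁, (∃ p : K₁[X], p ≠ 0 ∧
      eval₂ ((algebraMap (RatFunc K₁) F₁).comp RatFunc.C) x p = 0) →
      ∃ c : K₁, x = algebraMap (RatFunc K₁) F₁ (RatFunc.C c) := by
    rintro x ⟨p, hp, hpx⟩
    have hc : (algebraMap (RatFunc K₁) F₁).comp RatFunc.C = algebraMap K₁ F₁ := by
      refine RingHom.ext fun r => ?_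
      rw [IsScalarTower.algebraMap_apply K₁ (RatFunc K₁) F₁]
      rfl
    rw [hc] at hpx
    obtain ⟨c, hc'⟩ := hreg0 x ⟨p, hp, hpx⟩
    exact ⟨c, by rw [← hc', ← hc]; rfl⟩
  let iP : Algebra K₁[X] F₁ :=
    ((algebraMap (RatFunc K₁) F₁).comp (algebraMap K₁[X] (RatFunc K₁))).toAlgebra
  have t3 : IsScalarTower K₁[X] (RatFunc K₁) F₁ := IsScalarTower.of_algebraMap_eq (fun _ => rfl)
  have halg : Algebra.IsAlgebraic K₁[X] F₁ :=
    IsFractionRing.comap_isAlgebraic_iff.2 (Algebra.IsAlgebraic.of_finite (RatFunc K₁) F₁)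
  -- an integral primitive element
  obtain ⟨y0, hy0⟩ := Field.exists_primitive_element (RatFunc K₁) F₁
  obtain ⟨d, hd, hint⟩ := (halg.isAlgebraic y0).exists_integral_multiple
  set y : F₁ := d • y0 with hy
  have hdF : (algebraMap K₁[X] (RatFunc K₁) d) ≠ 0 := RatFunc.algebraMap_ne_zero hd
  have hyy : y0 = (algebraMap K₁[X] (RatFunc K₁) d)⁻¹ • y := by
    rw [hy, ← algebraMap_smul (RatFunc K₁) d y0, smul_smul, inv_mul_cancel₀ hdF, one_smul]
  have hadj : IntermediateField.adjoin (RatFunc K₁) {y} = ⊤ := by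
    rw [eq_top_iff, ← hy0, IntermediateField.adjoin_simple_le_iff, hyy]
    exact IntermediateField.smul_mem _ (IntermediateField.mem_adjoin_simple_self _ _)
  set f : K₁[X][X] := minpoly K₁[X] y with hf
  have hfm : f.Monic := minpoly.monic hint
  have hfi : Irreducible f := minpoly.irreducible hint
  have hfmap : f.map (algebraMap K₁[X] (RatFunc K₁)) = minpoly (RatFunc K₁) y :=
    (minpoly.isIntegrallyClosed_eq_field_fractions' (RatFunc K₁) hint).symm
  have hinj : Function.Injective
      ((algebraMap (RatFunc K₁) F₁).comp (algebraMap K₁[X] (RatFunc K₁))) :=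
    (algebraMap (RatFunc K₁) F₁).injective.comp (RatFunc.algebraMap_injective K₁)
  have habs : ∀ (M : Type) [Field M] (ψ : K₁ →+* M), Irreducible (f.map (mapRingHom ψ)) := by
    intro M _ ψ
    refine H33.irreducible_of_regular ψ
      ((algebraMap (RatFunc K₁) F₁).comp (algebraMap K₁[X] (RatFunc K₁))) hinj f hfm hfi y
      (minpoly.aeval K₁[X] y) ?_
    rintro x ⟨p, hp, hpx⟩
    have hcomp : (((algebraMap (RatFunc K₁) F₁).comp (algebraMap K₁[X] (RatFunc K₁))).comp C) =
        (algebraMap (RatFunc K₁) F₁).comp RatFunc.C := by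
      refine RingHom.ext fun c => ?_
      simp only [RingHom.comp_apply, RatFunc.algebraMap_C]
    rw [hcomp] at hpx
    obtain ⟨c, hc⟩ := hreg x ⟨p, hp, hpx⟩
    refine ⟨c, hc.trans ?_⟩
    simp only [RingHom.comp_apply, RatFunc.algebraMap_C]
  refine ⟨K₁, iK₁, hnf, f, hfm, ?_⟩
  intro K _ _ _
  let φ : K₁ →+* K := algebraMap K₁ K
  set g : K[X][X] := f.map (mapRingHom φ) with hg
  have hgm : g.Monic := hfm.map _
  have hgi : Irreducible g := habs K φ
  have hρi : Function.Injective ((algebraMap K[X] (RatFunc K)).comp (mapRingHom φ)) :=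
    (RatFunc.algebraMap_injective K).comp (Polynomial.map_injective _ φ.injective)
  let ρ : RatFunc K₁ →+* RatFunc K := IsFractionRing.lift hρi
  have hρ : ρ.comp (algebraMap K₁[X] (RatFunc K₁)) =
      (algebraMap K[X] (RatFunc K)).comp (mapRingHom φ) :=
    RingHom.ext fun x => IsFractionRing.lift_algebraMap hρi x
  have hmap : (minpoly (RatFunc K₁) y).map ρ = g.map (algebraMap K[X] (RatFunc K)) := by
    rw [← hfmap, Polynomial.map_map, hρ, hg, Polynomial.map_map]
  let iRR : Algebra (RatFunc K₁) (RatFunc K) := ρ.toAlgebra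
  obtain ⟨F, i1, i2, i3, i4, ⟨e⟩, y', hy'⟩ := base_change (E := RatFunc K₁) (E' := RatFunc K)
    (F₁ := F₁) y hadj (by
      show Irreducible ((minpoly (RatFunc K₁) y).map ρ)
      rw [hmap]
      exact (hgm.irreducible_iff_irreducible_map_fraction_map).1 hgi)
  refine ⟨?_, F, i1, i2, i3, i4, ⟨e.trans γ⟩, y', ?_⟩
  · show g.natDegree = Nat.card H
    rw [← Nat.card_congr γ.toEquiv, IsGalois.card_aut_eq_finrank,
      ← (Field.primitive_element_iff_minpoly_natDegree_eq (RatFunc K₁) y).1 hadj, ← hfmap,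
      hfm.natDegree_map, hfm.natDegree_map]
  · rw [hy']
    exact hmap

end Pool.Agent.H419.MK.RGP
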