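import Pool.Agent.H419.MK.Stm
import Pool.Graph.R_seed8.H33R2.V3

/-! # Specialisation of a Galois extension of `K(t)` at an integral parameter (`S_SPC`) -/

set_option autoImplicit false

open NumberField Polynomial

namespace Pool.Agent.H419.MK.SPC

open Pool.Agent.H419.MK
open H33

variable {K : Type} [Field K]

/-- the substitution `X ↦ μ X + α` -/
noncomputable def sub (α μ : K) (hμ : μ ≠ 0) : K[X] ≃ₐ[K] K[X] :=
  letI : Invertible μ := invertibleOfNonzero hμ
  algEquivCMulXAddC μ α

theorem sub_apply (α μ : K) (hμ : μ ≠ 0) (p : K[X]) : sub α μ hμ p = p.comp (C μ * X + C α) := by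
  unfold sub
  rw [algEquivCMulXAddC_apply]
  rfl

theorem sub_eval (α μ : K) (hμ : μ ≠ 0) (p : K[X]) (s : K) :
    (sub α μ hμ p).eval s = p.eval (α + s * μ) := by
  rw [sub_apply, eval_comp]
  congr 1
  simp only [eval_add, eval_mul, eval_C, eval_X]
  ring

theorem t_SPC (h : S_HITZ) : S_SPC := by
  classical
  intro K _ _ g H _ _ hg hgal α μ hμ
  obtain ⟨hdeg, F, iF, iA, fd, gal, ⟨e⟩, y, hy⟩ := hgal
  -- a generator
  have hcard : Nat.card H = Module.finrank (RatFunc K) F := by
    rw [← Nat.card_congr e.toEquiv, IsGalois.card_aut_eq_finrank]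
  have hnd : (minpoly (RatFunc K) y).natDegree = Module.finrank (RatFunc K) F := by
    rw [hy, hg.natDegree_map, hdeg, hcard]
  have hadj : IntermediateField.adjoin (RatFunc K) {y} = ⊤ :=
    (Field.primitive_element_iff_minpoly_natDegree_eq (RatFunc K) y).2 hnd
  have hint : IsIntegral (RatFunc K) y := IsIntegral.of_finite _ y
  have hgi : Irreducible g := by
    rw [hg.irreducible_iff_irreducible_map_fraction_map (K := RatFunc K), ← hy]
    exact minpoly.irreducible hint
  -- the lemma of the library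
  obtain ⟨S, hS⟩ := spec_lemma y hadj ∅
  set d : K[X] := ∏ s ∈ S, s.denom with hd
  have hd0 : d ≠ 0 := Finset.prod_ne_zero_iff.2 fun s _ => RatFunc.denom_ne_zero s
  -- the substitution
  let σ : K[X][X] ≃+* K[X][X] := Polynomial.mapEquiv (sub α μ hμ).toRingEquiv
  have hσ : ∀ p : K[X][X], σ p = p.map ((sub α μ hμ).toRingEquiv : K[X] →+* K[X]) := fun p => rfl
  have hσi : Irreducible (σ g) := (MulEquiv.irreducible_iff σ).2 hgi
  have hσm : (σ g).Monic := by
    rw [hσ]
    exact hg.map _
  have hd0' : sub α μ hμ d ≠ 0 := by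
    intro h0
    exact hd0 ((sub α μ hμ).injective (by rw [h0, map_zero]))
  obtain ⟨s, hs1, hs2⟩ := h K (σ g) hσm hσi (sub α μ hμ d) hd0'
  rw [sub_eval] at hs1
  set a : K := α + (s : K) * μ with ha
  have hcomp : (evalRingHom (s : K)).comp ((sub α μ hμ).toRingEquiv : K[X] →+* K[X]) =
      evalRingHom a := by
    refine RingHom.ext fun p => ?_
    exact sub_eval α μ hμ p s
  rw [hσ, Polynomial.map_map, hcomp] at hs2
  have hSA : (S : Set (RatFunc K)) ⊆ ((RP.Oc a).toSubring : Set (RatFunc K)) := by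
    intro s hs
    have h1 : s.denom.eval a ≠ 0 := by
      intro h0
      apply hs1
      rw [hd, Polynomial.eval_prod]
      exact Finset.prod_eq_zero hs h0
    refine ⟨s.num, s.denom, h1, ?_⟩
    have h2 : algebraMap K[X] (RatFunc K) s.denom ≠ 0 :=
      RatFunc.algebraMap_ne_zero (RatFunc.denom_ne_zero s)
    exact (div_eq_iff h2).1 (RatFunc.num_div_denom s) |>.symm
  have hpoly : (g.map (V3.polyA a)).map (RP.resc a : (RP.Oc a).toSubring →+* K) =
      g.map (evalRingHom a) := by
    rw [Polynomial.map_map]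
    congr 1
    refine RingHom.ext fun p => ?_
    exact V3.resc_polyA a p
  obtain ⟨F', iF', iKF', fd', gal', ψ, B, hA, hB, Φ, hyB, -, hΦA, -, -⟩ :=
    hS (RP.Oc a).toSubring hSA K (RP.resc a) (g.map (V3.polyA a))
      (by rw [Polynomial.map_map, hy]; rfl)
      (by rw [hpoly]; exact hs2)
  -- the minimal polynomial of the image of the generator
  set θ' : F' := Φ ⟨y, hyB⟩ with hθ'
  have hroot : aeval θ' (g.map (evalRingHom a)) = 0 := by
    -- the homomorphism from `A` to `B`
    let jA : (RP.Oc a).toSubring →+* B :=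
      ((algebraMap (RatFunc K) F).comp (RP.Oc a).toSubring.subtype).codRestrict B (fun x => hA x)
    have h1 : (Φ.comp jA) = (algebraMap K F').comp (RP.resc a) := by
      refine RingHom.ext fun x => ?_
      exact hΦA x
    have h2 : eval₂ jA (⟨y, hyB⟩ : B) (g.map (V3.polyA a)) = 0 := by
      apply Subtype.ext
      have h3 : (B.subtype) (eval₂ jA (⟨y, hyB⟩ : B) (g.map (V3.polyA a))) =
          eval₂ (B.subtype.comp jA) y (g.map (V3.polyA a)) := by
        rw [Polynomial.hom_eval₂]
        rfl
      have h4 : B.subtype.comp jA = (algebraMap (RatFunc K) F).comp (RP.Oc a).toSubring.subtype :=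
        rfl
      show (B.subtype) (eval₂ jA (⟨y, hyB⟩ : B) (g.map (V3.polyA a))) = 0
      rw [h3, h4, Polynomial.eval₂_map]
      have h5 : ((algebraMap (RatFunc K) F).comp (RP.Oc a).toSubring.subtype).comp (V3.polyA a) =
          (algebraMap (RatFunc K) F).comp (algebraMap K[X] (RatFunc K)) := rfl
      rw [h5, ← Polynomial.eval₂_map, ← hy]
      exact minpoly.aeval _ y
    have h6 := congrArg Φ h2
    rw [map_zero, Polynomial.hom_eval₂, h1, ← Polynomial.eval₂_map, hpoly] at h6
    exact h6
  have hmin : minpoly K θ' = g.map (evalRingHom a) :=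
    (minpoly.eq_of_irreducible_of_monic hs2 hroot (hg.map _)).symm
  -- embed in the algebraic closure
  let j : F' →ₐ[K] AlgebraicClosure K := IsAlgClosed.lift
  let e' : F' ≃ₐ[K] j.fieldRange := AlgEquiv.ofInjectiveField j
  refine ⟨s, j.fieldRange, e' θ', ?_, ?_, ?_, ?_⟩
  · exact LinearEquiv.finiteDimensional e'.toLinearEquiv
  · exact IsGalois.of_algEquiv e'
  · exact ⟨(AlgEquiv.autCongr e').symm.trans (ψ.symm.trans e)⟩
  · rw [minpoly.algEquiv_eq e' θ', hmin]

end Pool.Agent.H419.MK.SPC
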