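import Pool.Agent.H419.MK.Stm

/-! # SPL: the primes dividing `c` split completely -/

set_option autoImplicit false

open NumberField Polynomial WithZero

namespace Pool.Agent.H419.MK.SPL

/-- product bound -/
lemma prod_lower {M : Type} [Field M] (w : Valuation M ℤᵐ⁰) (a : M) (δ : ℤᵐ⁰) (s : Multiset M)
    (h : ∀ r ∈ s, δ ≤ w (a - r)) : δ ^ Multiset.card s ≤ w ((s.map (fun r => a - r)).prod) := by
  induction s using Multiset.induction_on with
  | empty => simp
  | cons r s ih =>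
    rw [Multiset.map_cons, Multiset.prod_cons, map_mul, Multiset.card_cons, pow_succ']
    exact mul_le_mul' (h r (Multiset.mem_cons_self r s))
      (ih fun r' hr' => h r' (Multiset.mem_cons_of_mem hr'))

/-- an endomorphism preserving `P` preserves the inequality between the orders at `P` -/
lemma order_lt {R : Type} [CommRing R] [IsDedekindDomain R] (v : IsDedekindDomain.HeightOneSpectrum R)
    (s : R →+* R) (hs : ∀ x ∈ v.asIdeal, s x ∈ v.asIdeal) {D x : R} (hD : D ≠ 0)
    (h : v.intValuation x < v.intValuation D) : v.intValuation (s x) < v.intValuation D := by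
  classical
  obtain ⟨k, hk⟩ : ∃ k : ℕ, v.intValuation D = exp (-(k : ℤ)) := ⟨_, v.intValuation_if_neg hD⟩
  rw [hk] at h ⊢
  have hx : v.intValuation x ≤ exp (-((k + 1 : ℕ) : ℤ)) := by
    by_cases h0 : x = 0
    · rw [h0, map_zero]
      exact zero_le
    · obtain ⟨m, hm⟩ : ∃ m : ℕ, v.intValuation x = exp (-(m : ℤ)) := ⟨_, v.intValuation_if_neg h0⟩
      rw [hm, exp_lt_exp] at h
      rw [hm, exp_le_exp]
      push_cast
      omega
  rw [v.intValuation_le_pow_iff_mem] at hx
  have h1 : Ideal.map s v.asIdeal ≤ v.asIdeal := Ideal.map_le_iff_le_comap.2 hs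
  have h2 : s x ∈ v.asIdeal ^ (k + 1) := by
    have h3 : s x ∈ Ideal.map s (v.asIdeal ^ (k + 1)) := Ideal.mem_map_of_mem s hx
    rw [Ideal.map_pow] at h3
    exact Ideal.pow_right_mono h1 _ h3
  have h4 := (v.intValuation_le_pow_iff_mem (s x) (k + 1)).2 h2
  refine lt_of_le_of_lt h4 ?_
  rw [exp_lt_exp]
  push_cast
  omega

theorem t_SPL : S_SPL := by
  intro K M _ _ _ _ _ _ ι _ y D c q θ hy hD hdiv hcard hmin P hP hP0 hcP σ hσ
  classical
  let v : IsDedekindDomain.HeightOneSpectrum (𝓞 M) := ⟨P, hP, hP0⟩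
  let w : Valuation M ℤᵐ⁰ := v.valuation M
  let a : 𝓞 K → M := fun x => ((algebraMap (𝓞 K) (𝓞 M) x : 𝓞 M) : M)
  have ha : ∀ x : 𝓞 K, a x = algebraMap K M (algebraMap (𝓞 K) K x) := fun x => rfl
  have hw1 : ∀ x : 𝓞 M, w (x : M) ≤ 1 := fun x => v.valuation_le_one x
  have hwi : ∀ x : 𝓞 M, w (x : M) = v.intValuation x := fun x => v.valuation_of_algebraMap x
  have hwc : w (a c) < 1 := (v.valuation_lt_one_iff_mem _).2 hcP
  have hD' : algebraMap (𝓞 K) (𝓞 M) D ≠ 0 := by
    intro h0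
    apply hD
    have h1 : a D = 0 := by
      show ((algebraMap (𝓞 K) (𝓞 M) D : 𝓞 M) : M) = 0
      rw [h0]
      rfl
    rw [ha] at h1
    have h2 : algebraMap (𝓞 K) K D = 0 := (map_eq_zero (algebraMap K M)).1 h1
    exact RingOfIntegers.coe_eq_zero_iff.1 h2
  have hwD0 : 0 < w (a D) := by
    have : v.intValuation (algebraMap (𝓞 K) (𝓞 M) D) ≠ 0 := v.intValuation_ne_zero _ hD'
    have h2 : w (a D) ≠ 0 := by
      rw [show w (a D) = v.intValuation (algebraMap (𝓞 K) (𝓞 M) D) from hwi _]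
      exact this
    exact zero_lt_iff.2 h2
  have hwD1 : w (a D) ≤ 1 := hw1 _
  set n := Fintype.card ι with hn
  -- the evaluation of the polynomial
  have ev : ∀ x : 𝓞 M, aeval (x : M) (minpoly K (θ : M)) = (∏ i, ((x : M) - a (y i))) +
      a c * a D ^ n * ((aeval x q : 𝓞 M) : M) := by
    intro x
    have e1 : ((aeval x q : 𝓞 M) : M) = aeval (x : M) (q.map (algebraMap (𝓞 K) K)) := by
      rw [aeval_map_algebraMap]
      exact (aeval_algebraMap_apply M x q).symm
    rw [hmin, Polynomial.map_add, Polynomial.map_mul, Polynomial.map_prod, map_add, map_mul, map_prod, e1]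
    congr 1
    · refine Finset.prod_congr rfl fun i _ => ?_
      rw [Polynomial.map_sub, map_X, map_C, map_sub, aeval_X, aeval_C, ha]
    · rw [map_C, aeval_C, map_mul, map_pow, map_mul, map_pow, ha, ha]
  have small : ∀ x : 𝓞 M, w (a c * a D ^ n * ((aeval x q : 𝓞 M) : M)) < w (a D) ^ n := by
    intro x
    rw [map_mul, map_mul, map_pow]
    have hpos : 0 < w (a D) ^ n := pow_pos hwD0 n
    calc w (a c) * w (a D) ^ n * w ((aeval x q : 𝓞 M) : M) ≤ w (a c) * w (a D) ^ n * 1 :=
          mul_le_mul_right (hw1 _) _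
      _ = w (a c) * w (a D) ^ n := mul_one _
      _ < 1 * w (a D) ^ n := mul_lt_mul_of_pos_right hwc hpos
      _ = w (a D) ^ n := one_mul _
  let s : (M ≃ₐ[K] M) → 𝓞 M →+* 𝓞 M := fun τ => RingOfIntegers.mapRingHom (τ : M →+* M)
  have hs : ∀ (τ : M ≃ₐ[K] M) (x : 𝓞 M), ((s τ x : 𝓞 M) : M) = τ (x : M) := fun τ x => rfl
  -- first step
  have st1 : ∀ τ : M ≃ₐ[K] M, ∃ i, w (τ (θ : M) - a (y i)) < w (a D) := by
    intro τ
    by_contra hcon
    push Not at hcon
    have h0 : aeval (τ (θ : M)) (minpoly K (θ : M)) = 0 := by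
      rw [aeval_algEquiv, AlgHom.comp_apply, minpoly.aeval]
      exact map_zero _
    have h1 := ev (s τ θ)
    rw [hs, h0] at h1
    have h2 : ∏ i, (τ (θ : M) - a (y i)) = -(a c * a D ^ n * ((aeval (s τ θ) q : 𝓞 M) : M)) :=
      eq_neg_of_add_eq_zero_left h1.symm
    have h3 : w (a D) ^ n ≤ w (∏ i, (τ (θ : M) - a (y i))) := by
      rw [map_prod]
      exact Finset.pow_card_le_prod Finset.univ _ _ fun i _ => hcon i
    rw [h2, Valuation.map_neg] at h3
    exact absurd (small (s τ θ)) (not_lt.2 h3)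
  -- second step
  have st2 : ∀ i, ∃ τ : M ≃ₐ[K] M, w (τ (θ : M) - a (y i)) < w (a D) := by
    intro i
    by_contra hcon
    push Not at hcon
    have hint : IsIntegral K (θ : M) := Algebra.IsIntegral.isIntegral _
    have h1 := ev (algebraMap (𝓞 K) (𝓞 M) (y i))
    have h2 : ∏ j, (((algebraMap (𝓞 K) (𝓞 M) (y i) : 𝓞 M) : M) - a (y j)) = 0 :=
      Finset.prod_eq_zero (Finset.mem_univ i) (sub_self _)
    rw [h2, zero_add] at h1
    have hsp : ((minpoly K (θ : M)).map (algebraMap K M)).Splits := Normal.splits inferInstance _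
    rw [hsp.aeval_eq_prod_aroots_of_monic (minpoly.monic hint)] at h1
    have h3 := prod_lower w (a (y i)) (w (a D)) ((minpoly K (θ : M)).aroots M) (by
      intro r hr
      have hr' : aeval r (minpoly K (θ : M)) = 0 := ((mem_aroots).1 hr).2
      obtain ⟨τ, hτ⟩ := minpoly.exists_algEquiv_of_root' hint.isAlgebraic hr'
      rw [Valuation.map_sub_swap, ← hτ]
      exact hcon τ)
    rw [show ((minpoly K (θ : M)).aroots M).map (fun r => a (y i) - r) =
      ((minpoly K (θ : M)).aroots M).map (fun r => ((algebraMap (𝓞 K) (𝓞 M) (y i) : 𝓞 M) : M) - r) from rfl] at h3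
    rw [h1] at h3
    have h4 : Multiset.card ((minpoly K (θ : M)).aroots M) ≤ n := by
      refine (Polynomial.card_roots' _).trans ?_
      rw [natDegree_map, hcard]
      exact minpoly.natDegree_le _
    have h5 : w (a D) ^ n ≤ w (a D) ^ Multiset.card ((minpoly K (θ : M)).aroots M) :=
      pow_le_pow_right_of_le_one' hwD1 h4
    exact absurd (small (algebraMap (𝓞 K) (𝓞 M) (y i))) (not_lt.2 (h5.trans h3))
  -- third step
  have st3 : ∀ (τ : M ≃ₐ[K] M) (i j : ι), w (τ (θ : M) - a (y i)) < w (a D) →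
      w (τ (θ : M) - a (y j)) < w (a D) → i = j := by
    intro τ i j hi hj
    by_contra hne
    obtain ⟨e, he⟩ := hdiv i j hne
    have h1 : w (a (y i) - a (y j)) < w (a D) := by
      have : a (y i) - a (y j) = (τ (θ : M) - a (y j)) - (τ (θ : M) - a (y i)) := by ring
      rw [this]
      exact lt_of_le_of_lt (Valuation.map_sub _ _ _) (max_lt hj hi)
    have h2 : a D = (a (y i) - a (y j)) * a e := by
      rw [he, ha, ha, ha, ha]
      rw [map_mul, map_mul, map_sub, map_sub]
    have h3 : w (a D) ≤ w (a (y i) - a (y j)) := by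
      conv_lhs => rw [h2]
      rw [map_mul]
      calc w (a (y i) - a (y j)) * w (a e) ≤ w (a (y i) - a (y j)) * 1 := mul_le_mul_right (hw1 _) _
        _ = _ := mul_one _
    exact absurd h1 (not_lt.2 h3)
  choose f hf using st1
  have hsur : Function.Surjective f := fun i => by
    obtain ⟨τ, hτ⟩ := st2 i
    exact ⟨τ, st3 τ _ _ (hf τ) hτ⟩
  have hfin : Fintype.card (M ≃ₐ[K] M) = Fintype.card ι := by
    rw [← Nat.card_eq_fintype_card, IsGalois.card_aut_eq_finrank]
    exact hcard.symm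
  have hbij : Function.Bijective f := (Fintype.bijective_iff_surjective_and_card f).2 ⟨hsur, hfin⟩
  apply hbij.1
  apply st3 σ _ _ (hf σ)
  -- fourth step
  have h1 := hf 1
  have e1 : ((1 : M ≃ₐ[K] M) (θ : M)) - a (y (f 1)) = ((θ - algebraMap (𝓞 K) (𝓞 M) (y (f 1)) : 𝓞 M) : M) := by
    rw [AlgEquiv.one_apply]
    rfl
  rw [e1] at h1
  have e2 : σ (θ : M) - a (y (f 1)) = ((s σ (θ - algebraMap (𝓞 K) (𝓞 M) (y (f 1))) : 𝓞 M) : M) := by
    rw [hs]
    have : ((θ - algebraMap (𝓞 K) (𝓞 M) (y (f 1)) : 𝓞 M) : M) = (θ : M) - a (y (f 1)) := rfl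
    rw [this, map_sub, ha, AlgEquiv.commutes]
  rw [e2]
  have h2 : v.intValuation (θ - algebraMap (𝓞 K) (𝓞 M) (y (f 1))) < v.intValuation (algebraMap (𝓞 K) (𝓞 M) D) := by
    rw [← hwi, ← hwi]
    exact h1
  have h3 := order_lt v (s σ) hσ hD' h2
  rw [← hwi, ← hwi] at h3
  exact h3

end Pool.Agent.H419.MK.SPL
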