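import Pool.Agent.H419.MK.StmB
import Pool.Graph.R_seed8.TH444.ML.Done

/-! # Malle's conjecture over large base fields, with local conditions: few extensions -/

set_option autoImplicit false

open NumberField Filter Topology
open Pool.Agent.TH444.ML Pool.Agent.Q258.LQ

namespace Pool.Agent.H419.MK.SUMG

section

variable {K Ω : Type} [Field K] [Field Ω] [Algebra K Ω]

/-- the two versions of the upper field -/
noncomputable def gg {F M : IntermediateField K Ω} (h : F ≤ M) :
    M ≃ₐ[K] (IntermediateField.extendScalars h) where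
  toFun x := ⟨(x : Ω), x.2⟩
  invFun x := ⟨(x : Ω), x.2⟩
  left_inv _ := rfl
  right_inv _ := rfl
  map_mul' _ _ := rfl
  map_add' _ _ := rfl
  commutes' _ := rfl

/-- restriction of the base field of automorphisms -/
noncomputable def res {F M : IntermediateField K Ω} (h : F ≤ M) :
    ((IntermediateField.extendScalars h) ≃ₐ[F] (IntermediateField.extendScalars h)) →*
    (M ≃ₐ[K] M) where
  toFun τ := ((gg h).trans (τ.restrictScalars K)).trans (gg h).symm
  map_one' := by
    ext x
    rfl
  map_mul' τ τ' := by
    ext x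
    show _ = (((gg h).symm (τ (gg h ((gg h).symm (τ' (gg h x)))))) : Ω)
    rw [AlgEquiv.apply_symm_apply]
    rfl

theorem res_inj {F M : IntermediateField K Ω} (h : F ≤ M) : Function.Injective (res h) := by
  intro τ τ' hh
  apply AlgEquiv.ext
  intro x
  have h1 := congrArg (fun t : (M ≃ₐ[K] M) => t ((gg h).symm x)) hh
  have h2 : (gg h).symm (τ (gg h ((gg h).symm x))) = (gg h).symm (τ' (gg h ((gg h).symm x))) := h1
  rw [AlgEquiv.apply_symm_apply] at h2
  exact (gg h).symm.injective h2

theorem res_fix {F M : IntermediateField K Ω} (h : F ≤ M)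
    (τ : (IntermediateField.extendScalars h) ≃ₐ[F] (IntermediateField.extendScalars h)) (x : M)
    (hx : (x : Ω) ∈ F) : res h τ x = x := by
  have h1 : gg h x = algebraMap F (IntermediateField.extendScalars h) ⟨(x : Ω), hx⟩ := rfl
  show (gg h).symm (τ (gg h x)) = x
  rw [h1, τ.commutes, ← h1, AlgEquiv.symm_apply_apply]

/-- the fixed field of a solvable normal subgroup -/
theorem key {H : Type} [Group H] (S : Subgroup H) [S.Normal] (hsol : Group.IsSolvable S)
    (M : IntermediateField K Ω) (hM : M ∈ Gal K Ω H) :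
    ∃ F ∈ Gal K Ω (H ⧸ S), SolvGal F M := by
  obtain ⟨hfd, hgal, ⟨e⟩⟩ := hM
  let N : Subgroup (M ≃ₐ[K] M) := S.comap e.toMonoidHom
  have hN : N.Normal := inferInstance
  let F0 : IntermediateField K M := IntermediateField.fixedField N
  have hF0 : IsGalois K F0 := IsGalois.of_fixedField_normal_subgroup N
  let F : IntermediateField K Ω := IntermediateField.lift F0
  have hle : F ≤ M := IntermediateField.lift_le F0
  let eF : F0 ≃ₐ[K] F := IntermediateField.liftAlgEquiv F0
  have hfdF : FiniteDimensional K F := Module.Finite.equiv eF.toLinearEquiv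
  have hgalF : IsGalois K F := IsGalois.of_algEquiv eF
  have hNS : N.map e.toMonoidHom = S := by
    apply Subgroup.map_comap_eq_self_of_surjective
    exact e.surjective
  refine ⟨F, ⟨hfdF, hgalF, ⟨?_⟩⟩, ?_⟩
  · exact (AlgEquiv.autCongr eF.symm).trans
      ((IsGalois.normalAutEquivQuotient N).symm.trans (QuotientGroup.congr N S e hNS))
  · have hfdM : FiniteDimensional K (IntermediateField.extendScalars hle) :=
      Module.Finite.equiv (gg hle).toLinearEquiv
    have hgalM : IsGalois K (IntermediateField.extendScalars hle) :=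
      IsGalois.of_algEquiv (gg hle)
    refine ⟨hle, Module.Finite.of_restrictScalars_finite K F _,
      IsGalois.tower_top_of_isGalois K F _, ?_⟩
    have hmem : ∀ τ : (IntermediateField.extendScalars hle) ≃ₐ[F]
        (IntermediateField.extendScalars hle), e (res hle τ) ∈ S := by
      intro τ
      have h1 : res hle τ ∈ N := by
        rw [← IntermediateField.fixingSubgroup_fixedField N]
        rw [IntermediateField.mem_fixingSubgroup_iff]
        intro x hx
        apply res_fix
        show (x : Ω) ∈ IntermediateField.lift F0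
        exact (IntermediateField.mem_lift x).2 hx
      exact h1
    let φ : ((IntermediateField.extendScalars hle) ≃ₐ[F] (IntermediateField.extendScalars hle)) →*
        S := (e.toMonoidHom.comp (res hle)).codRestrict S hmem
    have hφ : Function.Injective φ := by
      intro τ τ' hh
      apply res_inj hle
      apply e.injective
      exact congrArg Subtype.val hh
    exact Group.isSolvable_of_isSolvable_injective hφ

end

theorem sub_sum {α : Type} (f : α → ℝ) {A B : Set α} (hAB : A ⊆ B)
    (hs : Summable (fun F : B => f F.1)) : Summable (fun F : A => f F.1) := by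
  have h := hs.comp_injective (i := Set.inclusion hAB) (Set.inclusion_injective hAB)
  exact h

theorem t_SUMG : S_SUMG := by
  intro K Ω H _ _ _ _ _ _ _ hA
  obtain ⟨S, hS, hsol, hcase⟩ := hA
  -- restriction to a subset
  have hres : ∀ (A B : Set (IntermediateField K Ω)), A ⊆ B →
      Summable (fun F : B => (dsc F.1) ^ (-(5 / 4) : ℝ)) →
      Summable (fun F : A => (dsc F.1) ^ (-(5 / 4) : ℝ)) := by
    intro A B hAB hs
    exact sub_sum (fun L : IntermediateField K Ω => (dsc L) ^ (-(5 / 4) : ℝ)) hAB hs
  obtain ⟨𝓑, hB1, hB2⟩ : ∃ 𝓑 : Set (IntermediateField K Ω),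
      (∀ F ∈ Gal K Ω (H ⧸ S), F ∈ 𝓑) ∧
      Summable (fun F : 𝓑 => (dsc F.1) ^ (-(5 / 4) : ℝ)) := by
    rcases hcase with hcase | ⟨U, hU, hc⟩
    · refine ⟨{⊥}, ?_, ?_⟩
      · rintro F ⟨hfd, hgal, ⟨e⟩⟩
        rw [Set.mem_singleton_iff, ← IntermediateField.finrank_eq_one_iff,
          ← IsGalois.card_aut_eq_finrank K F, Nat.card_congr e.toEquiv]
        rw [hcase]
        exact Subgroup.index_top
      · exact (Set.finite_singleton (⊥ : IntermediateField K Ω)).summable
          (fun L : IntermediateField K Ω => (dsc L) ^ (-(5 / 4) : ℝ))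
    · refine ⟨Gal K Ω (H ⧸ S), fun F hF => hF, ?_⟩
      have h := rest.fewGal K Ω (H ⧸ S) U hU hc
      refine Summable.of_nonneg_of_le (fun F => ?_) (fun F => ?_) h
      · have : 1 ≤ dsc F.1 := one_le_dsc F.1
        positivity
      · exact Real.rpow_le_rpow_of_exponent_le (one_le_dsc F.1) (by norm_num)
  have hcard : 0 < Nat.card H := Nat.card_pos
  have hmain := sum_main (K := K) (Ω := Ω) inp (5 / 4) (by norm_num) (by norm_num) 𝓑 (Nat.card H)
    (fun m _ _ => hres _ 𝓑 (fun F hF => hF.1) hB2) (Nat.card H) hcard le_rfl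
  refine hres _ _ ?_ hmain
  intro M hM
  obtain ⟨F, hF, h, h1, h2, h3⟩ := key S hsol M hM
  refine ⟨solvTow K Ω 𝓑 F M h (PTow.base (hB1 F hF)) h1 h2 h3, ?_⟩
  obtain ⟨hfd, hgal, ⟨e⟩⟩ := hM
  rw [← IsGalois.card_aut_eq_finrank K M, Nat.card_congr e.toEquiv]

end Pool.Agent.H419.MK.SUMG
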