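import Pool.Agent.H419.MK.SUMG
import Pool.Agent.H419.MK.Few

/-! # Few extensions with group `H`: solvable-by-(small action) -/

set_option autoImplicit false

open NumberField Filter Topology
open Pool.Agent.TH444.ML Pool.Agent.Q258.LQ

namespace Pool.Agent.H419.MK

/-- `H` has a solvable normal subgroup `S` such that `H / S` is trivial or has a core-free subgroup
of index `u`, `4 u ^ 2 < 3 |H / S|`. -/
def Adm2 (H : Type) [Group H] : Prop :=
  ∃ (S : Subgroup H) (_ : S.Normal), Group.IsSolvable S ∧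
    (S = ⊤ ∨ ∃ U : Subgroup (H ⧸ S), U.normalCore = ⊥ ∧
      4 * U.index ^ 2 < 3 * Nat.card (H ⧸ S))

theorem sum2 (K Ω H : Type) [Field K] [NumberField K] [Field Ω] [Algebra K Ω]
    [IsAlgClosure K Ω] [Group H] [Finite H] (hA : Adm2 H) :
    ∃ s : ℝ, s < 3 / 2 ∧ Summable (fun M : Gal K Ω H => (dsc M.1) ^ (-s)) := by
  obtain ⟨S, hS, hsol, hcase⟩ := hA
  obtain ⟨s, hs1, hs2, 𝓑, hB1, hB2⟩ : ∃ s : ℝ, 1 < s ∧ s < 3 / 2 ∧
      ∃ 𝓑 : Set (IntermediateField K Ω), (∀ F ∈ Gal K Ω (H ⧸ S), F ∈ 𝓑) ∧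
      Summable (fun F : 𝓑 => (dsc F.1) ^ (-s)) := by
    rcases hcase with hcase | ⟨U, hU, hc⟩
    · refine ⟨5 / 4, by norm_num, by norm_num, {⊥}, ?_, ?_⟩
      · rintro F ⟨hfd, hgal, ⟨e⟩⟩
        rw [Set.mem_singleton_iff, ← IntermediateField.finrank_eq_one_iff,
          ← IsGalois.card_aut_eq_finrank K F, Nat.card_congr e.toEquiv]
        rw [hcase]
        exact Subgroup.index_top
      · exact (Set.finite_singleton (⊥ : IntermediateField K Ω)).summable
          (fun L : IntermediateField K Ω => (dsc L) ^ (-(5 / 4) : ℝ))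
    · obtain ⟨t, ht0, ht, hsum⟩ := few_gal K Ω (H ⧸ S) U hU hc
      refine ⟨(max t 1 + 3 / 2) / 2, ?_, ?_, Gal K Ω (H ⧸ S), fun F hF => hF, ?_⟩
      · have := le_max_right t 1
        linarith
      · have : max t 1 < 3 / 2 := max_lt ht (by norm_num)
        linarith
      · apply hsum
        have h1 : max t 1 < 3 / 2 := max_lt ht (by norm_num)
        have h2 := le_max_left t 1
        linarith
  have hres : ∀ (A B : Set (IntermediateField K Ω)), A ⊆ B →
      Summable (fun F : B => (dsc F.1) ^ (-s)) → Summable (fun F : A => (dsc F.1) ^ (-s)) := by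
    intro A B hAB hs
    exact SUMG.sub_sum (fun L : IntermediateField K Ω => (dsc L) ^ (-s)) hAB hs
  refine ⟨s, hs2, ?_⟩
  have hcard : 0 < Nat.card H := Nat.card_pos
  have hmain := sum_main (K := K) (Ω := Ω) inp s hs1 hs2 𝓑 (Nat.card H)
    (fun m _ _ => hres _ 𝓑 (fun F hF => hF.1) hB2) (Nat.card H) hcard le_rfl
  refine hres _ _ ?_ hmain
  intro M hM
  obtain ⟨F, hF, h, h1, h2, h3⟩ := SUMG.key S hsol M hM
  refine ⟨solvTow K Ω 𝓑 F M h (PTow.base (hB1 F hF)) h1 h2 h3, ?_⟩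
  obtain ⟨hfd, hgal, ⟨e⟩⟩ := hM
  rw [← IsGalois.card_aut_eq_finrank K M, Nat.card_congr e.toEquiv]

end Pool.Agent.H419.MK
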